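import Pool.Agent.Lib.MP_305fdd_al.F8.G.Table

/-!
# MP_305fdd_al, figure-eight project, block G: the homomorphism `Npre → N2`

`PS = SL₂(ℤ[ω]) / ±1`, `Th : N2 → PS` the natural homomorphism. The group `SL₂(ℤ[ω])` acts on
`Fin 6 × N2` by the coset table; the equation `[g] [r_i] Th(y) = [r_s] Th(y')` for `(s, y') = g (i, y)`
shows that `Npre` fixes the first coset, and the second component of `x (0, 1)` is `Psi x`.
-/

set_option autoImplicit false
set_option linter.unusedSimpArgs false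
set_option linter.unreachableTactic false
set_option linter.unusedTactic false

namespace Pool.Agent.F8.G

open scoped QuadraticAlgebra

/-! ### `PSL₂(ℤ[ω])` -/

/-- the subgroup `±1` -/
def pm : Subgroup (SL2 O) where
  carrier := {g | g = 1 ∨ g = -1}
  one_mem' := Or.inl rfl
  mul_mem' := by
    rintro g h (rfl | rfl) (rfl | rfl)
    · left; rw [one_mul]
    · right; rw [one_mul]
    · right; rw [mul_one]
    · left; rw [neg_mul_neg, one_mul]
  inv_mem' := by
    rintro g (rfl | rfl)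
    · left; rw [inv_one]
    · right
      show (-1 : SL2 O)⁻¹ = -1
      apply inv_eq_of_mul_eq_one_left
      rw [neg_mul_neg, one_mul]

instance : pm.Normal where
  conj_mem := by
    rintro g (rfl | rfl) h
    · left; rw [mul_one, mul_inv_cancel]
    · right; rw [mul_neg, mul_one, neg_mul, mul_inv_cancel]

/-- `PSL₂(ℤ[ω])` -/
abbrev PS : Type := SL2 O ⧸ pm

/-- the projection -/
abbrev pj : SL2 O →* PS := QuotientGroup.mk' pm

theorem pj_neg (g : SL2 O) : pj (-g) = pj g := by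
  apply QuotientGroup.eq.2
  right
  rw [← neg_one_mul g, mul_inv_rev]
  have : (-1 : SL2 O)⁻¹ = -1 := by
    apply inv_eq_of_mul_eq_one_left
    rw [neg_mul_neg, one_mul]
  rw [this, mul_neg, mul_one, neg_mul, inv_mul_cancel]

theorem pj_eq_one {g : SL2 O} (h : pj g = 1) : g = 1 ∨ g = -1 := by
  have := (QuotientGroup.eq_one_iff (N := pm) g).1 h
  exact this

/-- `u` -/
def mu : SL2 O := ⟨!![1, -1; -om ℤ, 1 + om ℤ], by rw [Matrix.det_fin_two]; decide⟩
/-- `v` -/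
def mv : SL2 O := ⟨!![1 + om ℤ, -1; -om ℤ, 1], by rw [Matrix.det_fin_two]; decide⟩

/-- the representation of the knot group -/
abbrev rO : G8 →* SL2 O := rho8 (om ℤ) (om_sq ℤ)

theorem rO_aa : rO aa = ma O := rho8_aa _ _
theorem rO_uu : rO uu = mu := by
  rw [uu_eq, map_mul, map_inv, rho8_aa, rho8_bb, mul_inv_eq_iff_eq_mul]
  apply SL_ext <;> decide
theorem rO_vv : rO vv = mv := by
  rw [vv_eq, map_mul, map_inv, rho8_aa, rho8_bb, inv_mul_eq_iff_eq_mul]
  apply SL_ext <;> decide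

theorem pj_eq {g h : SL2 O} (hgh : g = h ∨ g = -h) : pj g = pj h := by
  rcases hgh with rfl | rfl
  · rfl
  · exact pj_neg h

theorem mk2_sq : pj (mk2 ℤ) * pj (mk2 ℤ) = 1 := by
  rw [← map_mul, ← map_one pj]
  apply pj_eq
  right
  apply SL_ext <;> decide

/-- the homomorphism `C₂ → PS` -/
def kZ : Multiplicative (ZMod 2) →* PS where
  toFun e := if Multiplicative.toAdd e = 0 then 1 else pj (mk2 ℤ)
  map_one' := by simp
  map_mul' x y := by
    rw [toAdd_mul]
    generalize Multiplicative.toAdd x = i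
    generalize Multiplicative.toAdd y = j
    fin_cases i <;> fin_cases j
    · exact (one_mul _).symm
    · exact (one_mul _).symm
    · exact (mul_one _).symm
    · exact mk2_sq.symm

theorem mk2_aa : mk2 ℤ * ma O = mb (om ℤ) * mk2 ℤ := by
  apply SL_ext <;> decide

theorem mk2_bb : mk2 ℤ * mb (om ℤ) = ma O * mk2 ℤ := by
  apply SL_ext <;> decide

/-- the homomorphism `N2 → PSL₂(ℤ[ω])` -/
def Th : N2 →* PS := SemidirectProduct.lift (pj.comp rO) kZ (by
  intro e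
  have he : e = Multiplicative.ofAdd 0 ∨ e = Multiplicative.ofAdd 1 := by
    have : ∀ i : ZMod 2, i = 0 ∨ i = 1 := by decide
    exact this e
  rcases he with rfl | rfl
  · ext1 g
    show pj (rO g) = 1 * pj (rO g) * 1⁻¹
    rw [one_mul, inv_one, mul_one]
  · apply hom8_ext'
    · show pj (rO (kap aa)) = pj (mk2 ℤ) * pj (rO aa) * (pj (mk2 ℤ))⁻¹
      rw [kap_apply, kap0_aa, eq_mul_inv_iff_mul_eq, rho8_aa, ← map_mul pj, ← map_mul pj, mk2_aa]
      show pj (rO bb * mk2 ℤ) = _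
      rw [rho8_bb]
    · show pj (rO (kap bb)) = pj (mk2 ℤ) * pj (rO bb) * (pj (mk2 ℤ))⁻¹
      have : kap bb = aa := by
        rw [kap_apply]
        unfold bb
        rw [map_mul, kap0_uu, kap0_aa, inv_mul_cancel_left]
      rw [this, eq_mul_inv_iff_mul_eq, rho8_aa, ← map_mul pj, ← map_mul pj, rho8_bb, mk2_bb])

/-- the generators of `N2` -/
def na : N2 := i8 aa
/-- the generators of `N2` -/
def nu : N2 := i8 uu
/-- the generators of `N2` -/
def nv : N2 := i8 vv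

theorem Th_i8 (g : G8) : Th (i8 g) = pj (rO g) := SemidirectProduct.lift_inl _ _ _ g

theorem Th_na : Th na = pj (ma O) := by unfold na; rw [Th_i8, rO_aa]
theorem Th_nu : Th nu = pj mu := by unfold nu; rw [Th_i8, rO_uu]
theorem Th_nv : Th nv = pj mv := by unfold nv; rw [Th_i8, rO_vv]
theorem Th_kk : Th kk = pj (mk2 ℤ) := SemidirectProduct.lift_inr _ _ _ _

theorem relN : RelN N2 nu nv na kk := by
  have hk := kk_conj
  refine ⟨?_, ?_, kk_sq, ?_, ?_, ?_⟩
  · have h := congrArg i8 aa_uu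
    simp only [map_mul, map_inv] at h
    rw [mul_inv_eq_iff_eq_mul] at h
    show i8 aa * i8 uu = _
    rw [h]
    simp only [mul_assoc, nu, nv, na]
  · have h := congrArg i8 aa_vv
    simp only [map_mul, map_inv] at h
    rw [mul_inv_eq_iff_eq_mul] at h
    exact h
  · have h := kk_conj uu
    rw [kap_apply, kap0_uu, map_inv, mul_inv_eq_iff_eq_mul] at h
    exact h
  · have h := kk_conj vv
    rw [kap_apply, kap0_vv, map_inv, mul_inv_eq_iff_eq_mul] at h
    exact h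
  · have h := kk_conj aa
    rw [kap_apply, kap0_aa, map_mul, mul_inv_eq_iff_eq_mul] at h
    show kk * i8 aa = _
    rw [h, mul_assoc]; rfl

/-- the representatives of the cosets -/
def rr : Fin 6 → SL2 O := ![1, mJ ℤ, mB O, mU (om ℤ), ma O * mJ ℤ, ma O * mB O]

/-- the inverse of `u` -/
def mu' : SL2 O := ⟨!![1 + om ℤ, 1; om ℤ, 1], by rw [Matrix.det_fin_two]; decide⟩
/-- the inverse of `v` -/
def mv' : SL2 O := ⟨!![1, 1; om ℤ, 1 + om ℤ], by rw [Matrix.det_fin_two]; decide⟩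
/-- the inverse of `a` -/
def ma' : SL2 O := ⟨!![1, -1; 0, 1], by rw [Matrix.det_fin_two]; decide⟩

theorem mu_inv : mu⁻¹ = mu' := by
  apply inv_eq_of_mul_eq_one_left
  apply SL_ext <;> decide
theorem mv_inv : mv⁻¹ = mv' := by
  apply inv_eq_of_mul_eq_one_left
  apply SL_ext <;> decide
theorem ma_inv : (ma O)⁻¹ = ma' := by
  apply inv_eq_of_mul_eq_one_left
  apply SL_ext <;> decide

/-- equality up to sign from the entries -/
theorem SL_pm {g h : SL2 O} (hgh : (g.val 0 0 = h.val 0 0 ∧ g.val 0 1 = h.val 0 1 ∧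
    g.val 1 0 = h.val 1 0 ∧ g.val 1 1 = h.val 1 1) ∨ (g.val 0 0 = -h.val 0 0 ∧
    g.val 0 1 = -h.val 0 1 ∧ g.val 1 0 = -h.val 1 0 ∧ g.val 1 1 = -h.val 1 1)) :
    pj g = pj h := by
  apply pj_eq
  rcases hgh with ⟨h1, h2, h3, h4⟩ | ⟨h1, h2, h3, h4⟩
  · left; exact SL_ext h1 h2 h3 h4
  · right; exact SL_ext h1 h2 h3 h4

theorem Th_na' : Th na⁻¹ = pj ma' := by rw [map_inv, Th_na, ← map_inv, ma_inv]
theorem Th_nu' : Th nu⁻¹ = pj mu' := by rw [map_inv, Th_nu, ← map_inv, mu_inv]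
theorem Th_nv' : Th nv⁻¹ = pj mv' := by rw [map_inv, Th_nv, ← map_inv, mv_inv]
theorem Th_one : Th 1 = pj 1 := by rw [map_one, map_one]

theorem gen_A (i : Fin 6) : pj (ma O) * pj (rr i) = pj (rr (sA i)) * Th (cA nu nv na kk i) := by
  fin_cases i
  · show pj (ma O) * pj (1) = pj (1) * Th (na)
    simp only [map_mul Th, Th_na, Th_nu, Th_nv, Th_kk, Th_na', Th_nu', Th_nv', Th_one, ← map_mul]
    all_goals (apply SL_pm; decide)
  · show pj (ma O) * pj (mJ ℤ) = pj (ma O * mJ ℤ) * Th (1)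
    simp only [map_mul Th, Th_na, Th_nu, Th_nv, Th_kk, Th_na', Th_nu', Th_nv', Th_one, ← map_mul]
    all_goals (apply SL_pm; decide)
  · show pj (ma O) * pj (mB O) = pj (ma O * mB O) * Th (1)
    simp only [map_mul Th, Th_na, Th_nu, Th_nv, Th_kk, Th_na', Th_nu', Th_nv', Th_one, ← map_mul]
    all_goals (apply SL_pm; decide)
  · show pj (ma O) * pj (mU (om ℤ)) = pj (mU (om ℤ)) * Th (na)
    simp only [map_mul Th, Th_na, Th_nu, Th_nv, Th_kk, Th_na', Th_nu', Th_nv', Th_one, ← map_mul]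
    all_goals (apply SL_pm; decide)
  · show pj (ma O) * pj (ma O * mJ ℤ) = pj (mJ ℤ) * Th (nu * (nv⁻¹ * (nv⁻¹ * (na⁻¹ * kk))))
    simp only [map_mul Th, Th_na, Th_nu, Th_nv, Th_kk, Th_na', Th_nu', Th_nv', Th_one, ← map_mul]
    all_goals (apply SL_pm; decide)
  · show pj (ma O) * pj (ma O * mB O) = pj (mB O) * Th (nv * (nu⁻¹ * (na⁻¹ * kk)))
    simp only [map_mul Th, Th_na, Th_nu, Th_nv, Th_kk, Th_na', Th_nu', Th_nv', Th_one, ← map_mul]
    all_goals (apply SL_pm; decide)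

theorem gen_B (i : Fin 6) : pj (mB O) * pj (rr i) = pj (rr (sB i)) * Th (cB nu nv kk i) := by
  fin_cases i
  · show pj (mB O) * pj (1) = pj (mB O) * Th (1)
    simp only [map_mul Th, Th_na, Th_nu, Th_nv, Th_kk, Th_na', Th_nu', Th_nv', Th_one, ← map_mul]
    all_goals (apply SL_pm; decide)
  · show pj (mB O) * pj (mJ ℤ) = pj (mJ ℤ) * Th (kk)
    simp only [map_mul Th, Th_na, Th_nu, Th_nv, Th_kk, Th_na', Th_nu', Th_nv', Th_one, ← map_mul]
    all_goals (apply SL_pm; decide)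
  · show pj (mB O) * pj (mB O) = pj (1) * Th (1)
    simp only [map_mul Th, Th_na, Th_nu, Th_nv, Th_kk, Th_na', Th_nu', Th_nv', Th_one, ← map_mul]
    all_goals (apply SL_pm; decide)
  · show pj (mB O) * pj (mU (om ℤ)) = pj (ma O * mJ ℤ) * Th (nv⁻¹ * kk)
    simp only [map_mul Th, Th_na, Th_nu, Th_nv, Th_kk, Th_na', Th_nu', Th_nv', Th_one, ← map_mul]
    all_goals (apply SL_pm; decide)
  · show pj (mB O) * pj (ma O * mJ ℤ) = pj (mU (om ℤ)) * Th (nv⁻¹ * kk)
    simp only [map_mul Th, Th_na, Th_nu, Th_nv, Th_kk, Th_na', Th_nu', Th_nv', Th_one, ← map_mul]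
    all_goals (apply SL_pm; decide)
  · show pj (mB O) * pj (ma O * mB O) = pj (ma O * mB O) * Th (nu⁻¹ * (nv * (nu⁻¹ * kk)))
    simp only [map_mul Th, Th_na, Th_nu, Th_nv, Th_kk, Th_na', Th_nu', Th_nv', Th_one, ← map_mul]
    all_goals (apply SL_pm; decide)

theorem gen_J (i : Fin 6) : pj (mJ ℤ) * pj (rr i) = pj (rr (sJ i)) * Th (cJ nu nv kk i) := by
  fin_cases i
  · show pj (mJ ℤ) * pj (1) = pj (mJ ℤ) * Th (1)
    simp only [map_mul Th, Th_na, Th_nu, Th_nv, Th_kk, Th_na', Th_nu', Th_nv', Th_one, ← map_mul]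
    all_goals (apply SL_pm; decide)
  · show pj (mJ ℤ) * pj (mJ ℤ) = pj (mB O) * Th (kk)
    simp only [map_mul Th, Th_na, Th_nu, Th_nv, Th_kk, Th_na', Th_nu', Th_nv', Th_one, ← map_mul]
    all_goals (apply SL_pm; decide)
  · show pj (mJ ℤ) * pj (mB O) = pj (1) * Th (kk)
    simp only [map_mul Th, Th_na, Th_nu, Th_nv, Th_kk, Th_na', Th_nu', Th_nv', Th_one, ← map_mul]
    all_goals (apply SL_pm; decide)
  · show pj (mJ ℤ) * pj (mU (om ℤ)) = pj (ma O * mJ ℤ) * Th (1)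
    simp only [map_mul Th, Th_na, Th_nu, Th_nv, Th_kk, Th_na', Th_nu', Th_nv', Th_one, ← map_mul]
    all_goals (apply SL_pm; decide)
  · show pj (mJ ℤ) * pj (ma O * mJ ℤ) = pj (ma O * mB O) * Th (nu⁻¹ * nv)
    simp only [map_mul Th, Th_na, Th_nu, Th_nv, Th_kk, Th_na', Th_nu', Th_nv', Th_one, ← map_mul]
    all_goals (apply SL_pm; decide)
  · show pj (mJ ℤ) * pj (ma O * mB O) = pj (mU (om ℤ)) * Th (nv⁻¹ * nu)
    simp only [map_mul Th, Th_na, Th_nu, Th_nv, Th_kk, Th_na', Th_nu', Th_nv', Th_one, ← map_mul]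
    all_goals (apply SL_pm; decide)

theorem gen_U (i : Fin 6) : pj (mU (om ℤ)) * pj (rr i) = pj (rr (sU i)) * Th (cU nu nv na kk i) := by
  fin_cases i
  · show pj (mU (om ℤ)) * pj (1) = pj (mU (om ℤ)) * Th (1)
    simp only [map_mul Th, Th_na, Th_nu, Th_nv, Th_kk, Th_na', Th_nu', Th_nv', Th_one, ← map_mul]
    all_goals (apply SL_pm; decide)
  · show pj (mU (om ℤ)) * pj (mJ ℤ) = pj (ma O * mJ ℤ) * Th (nv⁻¹ * (nu * kk))
    simp only [map_mul Th, Th_na, Th_nu, Th_nv, Th_kk, Th_na', Th_nu', Th_nv', Th_one, ← map_mul]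
    all_goals (apply SL_pm; decide)
  · show pj (mU (om ℤ)) * pj (mB O) = pj (mB O) * Th (nu * na)
    simp only [map_mul Th, Th_na, Th_nu, Th_nv, Th_kk, Th_na', Th_nu', Th_nv', Th_one, ← map_mul]
    all_goals (apply SL_pm; decide)
  · show pj (mU (om ℤ)) * pj (mU (om ℤ)) = pj (1) * Th (nu * (nv⁻¹ * (nv⁻¹ * (na⁻¹ * kk))))
    simp only [map_mul Th, Th_na, Th_nu, Th_nv, Th_kk, Th_na', Th_nu', Th_nv', Th_one, ← map_mul]
    all_goals (apply SL_pm; decide)
  · show pj (mU (om ℤ)) * pj (ma O * mJ ℤ) = pj (mJ ℤ) * Th (na⁻¹)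
    simp only [map_mul Th, Th_na, Th_nu, Th_nv, Th_kk, Th_na', Th_nu', Th_nv', Th_one, ← map_mul]
    all_goals (apply SL_pm; decide)
  · show pj (mU (om ℤ)) * pj (ma O * mB O) = pj (ma O * mB O) * Th (nu * na)
    simp only [map_mul Th, Th_na, Th_nu, Th_nv, Th_kk, Th_na', Th_nu', Th_nv', Th_one, ← map_mul]
    all_goals (apply SL_pm; decide)

/-- the quadratic form `x² + x y + ω² y²` over `𝔽₄` -/
def qf (x y : Es (ZMod 2)) : Es (ZMod 2) :=
  x * x + x * y + om (ZMod 2) * om (ZMod 2) * (y * y)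

/-- the stabiliser of the quadratic form -/
def St : Subgroup (SL2 (Es (ZMod 2))) where
  carrier := {g | ∀ x y, qf (g.val 0 0 * x + g.val 0 1 * y) (g.val 1 0 * x + g.val 1 1 * y) =
    qf x y}
  one_mem' := by
    intro x y
    show qf (1 * x + 0 * y) (0 * x + 1 * y) = _
    congr 1 <;> ring
  mul_mem' := by
    intro g h hg hh x y
    have h1 := hg (h.val 0 0 * x + h.val 0 1 * y) (h.val 1 0 * x + h.val 1 1 * y)
    rw [hh x y] at h1
    rw [← h1, SL_mul, SL_mul, SL_mul, SL_mul]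
    congr 1 <;> ring
  inv_mem' := by
    intro g hg x y
    have hd := SL_det g
    have e : (g⁻¹).val = !![g.val 1 1, -g.val 0 1; -g.val 1 0, g.val 0 0] := by
      rw [Matrix.SpecialLinearGroup.coe_inv, Matrix.adjugate_fin_two]
    have e00 : (g⁻¹).val 0 0 = g.val 1 1 := by rw [e]; rfl
    have e01 : (g⁻¹).val 0 1 = -g.val 0 1 := by rw [e]; rfl
    have e10 : (g⁻¹).val 1 0 = -g.val 1 0 := by rw [e]; rfl
    have e11 : (g⁻¹).val 1 1 = g.val 0 0 := by rw [e]; rfl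
    have h1 := hg ((g⁻¹).val 0 0 * x + (g⁻¹).val 0 1 * y) ((g⁻¹).val 1 0 * x + (g⁻¹).val 1 1 * y)
    rw [← h1, e00, e01, e10, e11]
    congr 1
    · linear_combination x * hd
    · linear_combination y * hd

theorem mem_St {g : SL2 (Es (ZMod 2))} (h : g ∈ St) (x y : Es (ZMod 2)) :
    qf (g.val 0 0 * x + g.val 0 1 * y) (g.val 1 0 * x + g.val 1 1 * y) = qf x y := h x y

/-- a finite check for membership -/
theorem St_of {g : SL2 (Es (ZMod 2))} (h : ∀ x₁ x₂ y₁ y₂ : ZMod 2,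
    qf (g.val 0 0 * ⟨x₁, x₂⟩ + g.val 0 1 * ⟨y₁, y₂⟩) (g.val 1 0 * ⟨x₁, x₂⟩ + g.val 1 1 * ⟨y₁, y₂⟩) =
    qf ⟨x₁, x₂⟩ ⟨y₁, y₂⟩) : g ∈ St := by
  rintro ⟨x₁, x₂⟩ ⟨y₁, y₂⟩
  exact h x₁ x₂ y₁ y₂

theorem ma_St : ma (Es (ZMod 2)) ∈ St := St_of (by decide)
theorem mb_St : mb (om (ZMod 2)) ∈ St := St_of (by decide)
theorem mk2_St : mk2 (ZMod 2) ∈ St := St_of (by decide)

theorem D5_le : D5 ≤ St := by
  unfold D5
  rw [Subgroup.closure_le]
  rintro g (rfl | rfl)
  · exact ma_St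
  · exact mb_St

/-- reduction modulo `2` on `PSL₂(ℤ[ω])` -/
def r2p : PS →* SL2 (Es (ZMod 2)) := QuotientGroup.lift pm r2 (by
  rintro g (rfl | rfl)
  · exact map_one r2
  · apply SL_ext <;> decide)

theorem r2p_pj (g : SL2 O) : r2p (pj g) = r2 g := rfl

theorem r2_map (g : SL2 O) (i k : Fin 2) : (r2 g).val i k =
    Qd.map (-1) (Int.castRingHom (ZMod 2)) (g.val i k) := rfl

theorem r2_ma : r2 (ma O) = ma (Es (ZMod 2)) := by apply SL_ext <;> decide
theorem r2_mu : r2 (mb (om ℤ)) = mb (om (ZMod 2)) := by apply SL_ext <;> decide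
theorem r2_mk2 : r2 (mk2 ℤ) = mk2 (ZMod 2) := by apply SL_ext <;> decide

theorem rr_St (i : Fin 6) (h : r2 (rr i) ∈ St) : i = 0 := by
  have h1 := mem_St h 1 0
  have h2 := mem_St h 0 1
  fin_cases i
  · rfl
  · exact absurd h1 (by decide)
  · exact absurd h1 (by decide)
  · exact absurd h2 (by decide)
  · exact absurd h1 (by decide)
  · exact absurd h1 (by decide)

/-- homomorphisms from `G8` with values in a subgroup on the generators -/
theorem G8_mem {Q : Type} [Group Q] (θ : G8 →* Q) (S : Subgroup Q) (ha : θ aa ∈ S)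
    (hb : θ bb ∈ S) (g : G8) : θ g ∈ S := by
  have hu : θ uu ∈ S := by
    rw [uu_eq, map_mul, map_inv]; exact S.mul_mem hb (S.inv_mem ha)
  have hv : θ vv ∈ S := by
    rw [vv_eq, map_mul, map_inv]; exact S.mul_mem (S.inv_mem ha) hb
  have h1 := congrArg θ aa_uu
  have h2 := congrArg θ aa_vv
  simp only [map_mul, map_inv] at h1 h2
  have e : S.subtype.comp (lift8 (⟨θ uu, hu⟩ : S) ⟨θ vv, hv⟩ ⟨θ aa, ha⟩ (Subtype.ext h1)
      (Subtype.ext h2)) = θ := by
    apply hom8_ext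
    · rw [MonoidHom.comp_apply, lift8_uu]; rfl
    · rw [MonoidHom.comp_apply, lift8_vv]; rfl
    · rw [MonoidHom.comp_apply, lift8_aa]; rfl
  rw [← e]
  exact (lift8 (⟨θ uu, hu⟩ : S) ⟨θ vv, hv⟩ ⟨θ aa, ha⟩ (Subtype.ext h1) (Subtype.ext h2) g).2

theorem Th_St (y : N2) : r2p (Th y) ∈ St := by
  have e : y = i8 y.left * SemidirectProduct.inr y.right := by
    rw [SemidirectProduct.inl_left_mul_inr_right]
  rw [e, map_mul, map_mul]
  apply St.mul_mem
  · apply G8_mem (r2p.comp (Th.comp i8)) St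
    · show r2p (Th (i8 aa)) ∈ St
      rw [Th_i8, rho8_aa, r2p_pj, r2_ma]
      exact ma_St
    · show r2p (Th (i8 bb)) ∈ St
      rw [Th_i8, rho8_bb, r2p_pj, r2_mu]
      exact mb_St
  · have he : y.right = 1 ∨ y.right = Multiplicative.ofAdd 1 := by
      have : ∀ i : ZMod 2, i = 0 ∨ i = 1 := by decide
      exact this y.right
    rcases he with he | he
    · rw [he, map_one, map_one, map_one]
      exact St.one_mem
    · rw [he]
      show r2p (Th kk) ∈ St
      rw [Th_kk, r2p_pj, r2_mk2]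
      exact mk2_St

/-- the value of a pair -/
def V (p : Fin 6 × N2) : PS := pj (rr p.1) * Th p.2

/-- right multiplication -/
def rt (z : N2) (p : Fin 6 × N2) : Fin 6 × N2 := (p.1, p.2 * z)

/-- the subgroup of the elements for which the table is compatible with `V` and `rt` -/
def TT (f : SL2 O →* Equiv.Perm (Fin 6 × N2)) : Subgroup (SL2 O) where
  carrier := {g | (∀ p, pj g * V p = V (f g p)) ∧ ∀ z p, f g (rt z p) = rt z (f g p)}
  one_mem' := ⟨fun p => by rw [map_one, map_one, one_mul]; rfl, fun z p => by rw [map_one]; rfl⟩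
  mul_mem' := by
    rintro g h ⟨g1, g2⟩ ⟨h1, h2⟩
    refine ⟨fun p => ?_, fun z p => ?_⟩
    · rw [map_mul, mul_assoc, h1, g1, map_mul]; rfl
    · rw [map_mul, Equiv.Perm.mul_apply, Equiv.Perm.mul_apply, h2, g2]
  inv_mem' := by
    rintro g ⟨g1, g2⟩
    have hi : ∀ p, f g (f g⁻¹ p) = p := by
      intro p
      rw [← Equiv.Perm.mul_apply, ← map_mul, mul_inv_cancel, map_one]; rfl
    refine ⟨fun p => ?_, fun z p => ?_⟩
    · have := g1 (f g⁻¹ p)
      rw [hi] at this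
      rw [← this, map_inv, inv_mul_cancel_left]
    · apply (f g).injective
      rw [hi, g2, hi]

theorem mkP_TT (g : SL2 O) (f : SL2 O →* Equiv.Perm (Fin 6 × N2)) (s t : Fin 6 → Fin 6)
    (h1 : ∀ i, t (s i) = i) (h2 : ∀ i, s (t i) = i) (c : Fin 6 → N2)
    (hf : f g = mkP s t h1 h2 c) (hg : ∀ i, pj g * pj (rr i) = pj (rr (s i)) * Th (c i)) :
    g ∈ TT f := by
  refine ⟨?_, ?_⟩
  · rintro ⟨i, y⟩
    rw [hf, mkP_apply]
    show pj g * (pj (rr i) * Th y) = pj (rr (s i)) * Th (c i * y)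
    rw [← mul_assoc, hg, map_mul, mul_assoc]
  · rintro z ⟨i, y⟩
    rw [hf, mkP_apply]
    show mkP s t h1 h2 c (i, y * z) = (s i, c i * y * z)
    rw [mkP_apply, mul_assoc]

/-- BLOCK G: the homomorphism `Npre → N2`, injective modulo `±1` -/
theorem G_main : ∃ Psi : Npre →* N2, ∀ x : Npre, Psi x = 1 → x.val.val = 1 ∨ x.val.val = -1 := by
  obtain ⟨f, fU, fJ, fB⟩ := pres (table relN)
  have fA : f (ma O) = pA nu nv na kk := by
    have := fU 1
    unfold ee at this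
    rw [QuadraticAlgebra.re_one, QuadraticAlgebra.im_one, zpow_one, zpow_zero, mul_one] at this
    exact this
  have fW : f (mU (om ℤ)) = pU nu nv na kk := by
    rw [fU]
    unfold ee
    rw [om_re, om_im, zpow_one, zpow_zero, one_mul]
  have hT : ∀ g, g ∈ TT f := SL_sub (TT f)
    (mkP_TT _ f _ _ _ _ _ fA gen_A) (mkP_TT _ f _ _ _ _ _ fW gen_U)
    (mkP_TT _ f _ _ _ _ _ fJ gen_J) (mkP_TT _ f _ _ _ _ _ fB gen_B)
  have hV : ∀ g, pj g = V (f g (0, 1)) := by
    intro g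
    rw [← (hT g).1 (0, 1)]
    show pj g = pj g * (pj 1 * Th 1)
    rw [map_one, map_one, mul_one, mul_one]
  have h0 : ∀ x : Npre, (f x.val (0, 1)).1 = 0 := by
    intro x
    apply rr_St
    have h1 := congrArg r2p (hV x.val)
    have h2 : r2p (V (f x.val (0, 1))) = r2 (rr (f x.val (0, 1)).1) * r2p (Th (f x.val (0, 1)).2) := by
      unfold V
      rw [map_mul]; rfl
    rw [h2] at h1
    have h3 : r2 (rr (f x.val (0, 1)).1) = r2 x.val * (r2p (Th (f x.val (0, 1)).2))⁻¹ := by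
      rw [eq_mul_inv_iff_mul_eq]; exact h1.symm
    rw [h3]
    exact St.mul_mem (D5_le x.2) (St.inv_mem (Th_St _))
  have hp : ∀ x : Npre, f x.val (0, 1) = (0, (f x.val (0, 1)).2) := fun x => Prod.ext (h0 x) rfl
  refine ⟨⟨⟨fun x => (f x.val (0, 1)).2, by
    show (f (1 : SL2 O) (0, 1)).2 = 1
    rw [map_one]; rfl⟩, ?_⟩, ?_⟩
  · intro x y
    show (f (x.val * y.val) (0, 1)).2 = (f x.val (0, 1)).2 * (f y.val (0, 1)).2
    rw [map_mul, Equiv.Perm.mul_apply]
    have h1 : f y.val (0, 1) = rt (f y.val (0, 1)).2 (0, 1) := by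
      conv_lhs => rw [hp y]
      unfold rt
      rw [one_mul]
    conv_lhs => rw [h1, (hT x.val).2]
    rfl
  · intro x hx
    have hx' : (f x.val (0, 1)).2 = 1 := hx
    have h1 := hV x.val
    rw [hp x, hx'] at h1
    have h2 : V (0, 1) = 1 := by
      show pj 1 * Th 1 = 1
      rw [map_one, map_one, mul_one]
    rw [h2] at h1
    rcases pj_eq_one h1 with h | h
    · left; rw [h]; rfl
    · right; rw [h]; rfl

end Pool.Agent.F8.G
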