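import Pool.Agent.Lib.MP_305fdd_al.F8.Defs

/-!
# MP_305fdd_al, figure-eight project, block G: arithmetic of `O = ℤ[ω]`

The norm, division with remainder, and the local structure of the set of the possible quotients.
-/

set_option autoImplicit false

namespace Pool.Agent.F8.G

open scoped QuadraticAlgebra

/-- the norm of `x + y ω` -/
def nm (z : O) : ℤ := z.re ^ 2 - z.re * z.im + z.im ^ 2

theorem O_ext {z w : O} (h1 : z.re = w.re) (h2 : z.im = w.im) : z = w :=
  QuadraticAlgebra.ext h1 h2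

theorem O_re_mul (z w : O) : (z * w).re = z.re * w.re - z.im * w.im := by
  rw [QuadraticAlgebra.re_mul]; ring

theorem O_im_mul (z w : O) : (z * w).im = z.re * w.im + z.im * w.re - z.im * w.im := by
  rw [QuadraticAlgebra.im_mul]
  push_cast
  ring

theorem nm_mul (z w : O) : nm (z * w) = nm z * nm w := by
  unfold nm
  rw [O_re_mul, O_im_mul]
  ring

theorem nm_nonneg (z : O) : 0 ≤ nm z := by
  unfold nm
  nlinarith [sq_nonneg (z.re - z.im), sq_nonneg z.re, sq_nonneg z.im]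

theorem nm_zero : nm 0 = 0 := by
  unfold nm
  simp

theorem nm_one : nm 1 = 1 := by
  unfold nm
  simp

theorem nm_neg (z : O) : nm (-z) = nm z := by
  unfold nm
  rw [QuadraticAlgebra.re_neg, QuadraticAlgebra.im_neg]
  ring

theorem nm_eq_zero {z : O} (h : nm z = 0) : z = 0 := by
  unfold nm at h
  have h1 : z.re = 0 := by
    nlinarith [sq_nonneg (z.re - z.im), sq_nonneg z.re, sq_nonneg z.im,
      sq_nonneg (2 * z.im - z.re)]
  have h2 : z.im = 0 := by
    rw [h1] at h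
    nlinarith
  exact O_ext h1 h2

theorem nm_pos {z : O} (h : z ≠ 0) : 0 < nm z := by
  rcases (nm_nonneg z).lt_or_eq with h1 | h1
  · exact h1
  · exact absurd (nm_eq_zero h1.symm) h

/-- parallelogram identity -/
theorem nm_par (x y : O) : nm (x - y) + nm (x + y) = 2 * nm x + 2 * nm y := by
  unfold nm
  simp only [QuadraticAlgebra.re_sub, QuadraticAlgebra.im_sub, QuadraticAlgebra.re_add,
    QuadraticAlgebra.im_add]
  ring

/-- division with remainder -/
theorem O_div (a c : O) (hc : c ≠ 0) : ∃ q : O, nm (a - q * c) < nm c := by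
  have hN := nm_pos hc
  set N := nm c with hNd
  -- `a * conj c = r + s ω`
  obtain ⟨cc, hccd⟩ : ∃ cc : O, cc = ⟨c.re - c.im, -c.im⟩ := ⟨_, rfl⟩
  obtain ⟨P, hP⟩ : ∃ P : O, P = a * cc := ⟨_, rfl⟩
  have hcc : nm cc = N := by
    rw [hNd, hccd]; unfold nm; ring
  have h2 : c * cc = ⟨N, 0⟩ := by
    rw [hccd]
    apply O_ext
    · rw [O_re_mul, hNd]; unfold nm; ring
    · rw [O_im_mul]; ring
  obtain ⟨m, hm⟩ : ∃ m : ℤ, |2 * (P.re - m * N)| ≤ N := by
    refine ⟨(2 * P.re + N) / (2 * N), ?_⟩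
    have e1 := Int.emod_add_mul_ediv (2 * P.re + N) (2 * N)
    have e2 := Int.emod_nonneg (2 * P.re + N) (show (2 * N) ≠ 0 by omega)
    have e3 := Int.emod_lt_of_pos (2 * P.re + N) (show 0 < 2 * N by omega)
    rw [abs_le]
    constructor <;> nlinarith
  obtain ⟨n, hn⟩ : ∃ n : ℤ, |2 * (P.im - n * N)| ≤ N := by
    refine ⟨(2 * P.im + N) / (2 * N), ?_⟩
    have e1 := Int.emod_add_mul_ediv (2 * P.im + N) (2 * N)
    have e2 := Int.emod_nonneg (2 * P.im + N) (show (2 * N) ≠ 0 by omega)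
    have e3 := Int.emod_lt_of_pos (2 * P.im + N) (show 0 < 2 * N by omega)
    rw [abs_le]
    constructor <;> nlinarith
  refine ⟨⟨m, n⟩, ?_⟩
  have h3 : nm (a - ⟨m, n⟩ * c) * N = nm ((a - ⟨m, n⟩ * c) * cc) := by
    rw [nm_mul, hcc]
  have h4 : (a - ⟨m, n⟩ * c) * cc = P - ⟨m, n⟩ * ⟨N, 0⟩ := by
    rw [sub_mul, mul_assoc, h2, hP]
  have h5 : P - ⟨m, n⟩ * ⟨N, 0⟩ = ⟨P.re - m * N, P.im - n * N⟩ := by
    apply O_ext
    · rw [QuadraticAlgebra.re_sub, O_re_mul]; ring
    · rw [QuadraticAlgebra.im_sub, O_im_mul]; ring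
  clear hP
  rw [h4, h5] at h3
  generalize P.re - m * N = r at *
  generalize P.im - n * N = s at *
  have h6 : nm (⟨r, s⟩ : O) = r ^ 2 - r * s + s ^ 2 := rfl
  rw [h6] at h3
  rw [abs_le] at hm hn
  have h7 : 4 * (r ^ 2 - r * s + s ^ 2) ≤ 3 * N ^ 2 := by
    nlinarith [mul_nonneg (show 0 ≤ N - 2 * r by linarith) (show 0 ≤ N + 2 * r by linarith),
      mul_nonneg (show 0 ≤ N - 2 * s by linarith) (show 0 ≤ N + 2 * s by linarith),
      mul_nonneg (show 0 ≤ N - 2 * r by linarith) (show 0 ≤ N + 2 * s by linarith),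
      mul_nonneg (show 0 ≤ N + 2 * r by linarith) (show 0 ≤ N - 2 * s by linarith)]
  by_contra hcon
  push Not at hcon
  nlinarith

/-- the six units -/
theorem unit_cases {v : O} (h : nm v = 1) :
    v = 1 ∨ v = -1 ∨ v = ⟨0, 1⟩ ∨ v = -⟨0, 1⟩ ∨ v = ⟨-1, -1⟩ ∨ v = -⟨-1, -1⟩ := by
  unfold nm at h
  have h1 : v.re ≤ 1 := by nlinarith [sq_nonneg (2 * v.im - v.re)]
  have h2 : -1 ≤ v.re := by nlinarith [sq_nonneg (2 * v.im - v.re)]
  have h3 : v.im ≤ 1 := by nlinarith [sq_nonneg (2 * v.re - v.im)]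
  have h4 : -1 ≤ v.im := by nlinarith [sq_nonneg (2 * v.re - v.im)]
  obtain ⟨r, s⟩ := v
  simp only at h h1 h2 h3 h4
  interval_cases r <;> interval_cases s <;> first | (exfalso; revert h; decide) | decide

/-- a remainder for elements of the same norm -/
theorem unit_step (a c : O) (hc : c ≠ 0) (h : nm a = nm c) :
    ∃ v : O, nm v = 1 ∧ nm (a - v * c) < nm c := by
  have hN := nm_pos hc
  -- `a * conj c = r + s ω`, traces
  have key : ∀ v : O, nm (a - v * c) = nm a + nm v * nm c -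
      (2 * (a.re * (v * c).re) - a.re * (v * c).im - a.im * (v * c).re +
        2 * (a.im * (v * c).im)) := by
    intro v
    rw [← nm_mul]
    unfold nm
    rw [QuadraticAlgebra.re_sub, QuadraticAlgebra.im_sub]
    ring
  by_contra hcon
  push Not at hcon
  have e1 := hcon 1 (by rw [nm_one])
  have e2 := hcon (-1) (by rw [nm_neg, nm_one])
  have e3 := hcon ⟨0, 1⟩ (by decide)
  have e4 := hcon ⟨0, -1⟩ (by decide)
  have e5 := hcon ⟨1, 1⟩ (by decide)
  have e6 := hcon ⟨-1, -1⟩ (by decide)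
  rw [key] at e1 e2 e3 e4 e5 e6
  have n1 : nm (1 : O) = 1 := nm_one
  have n2 : nm (-1 : O) = 1 := by rw [nm_neg, nm_one]
  have n3 : nm (⟨0, 1⟩ : O) = 1 := by decide
  have n4 : nm (⟨0, -1⟩ : O) = 1 := by decide
  have n5 : nm (⟨1, 1⟩ : O) = 1 := by decide
  have n6 : nm (⟨-1, -1⟩ : O) = 1 := by decide
  rw [n1] at e1
  rw [n2] at e2
  rw [n3] at e3
  rw [n4] at e4
  rw [n5] at e5
  rw [n6] at e6
  simp only [O_re_mul, O_im_mul, one_mul, neg_mul, QuadraticAlgebra.re_neg,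
    QuadraticAlgebra.im_neg] at e1 e2 e3 e4 e5 e6
  rw [h] at e1 e2 e3 e4 e5 e6
  have hcn : nm c = c.re ^ 2 - c.re * c.im + c.im ^ 2 := rfl
  have han : nm c = a.re ^ 2 - a.re * a.im + a.im ^ 2 := by rw [← h]; rfl
  generalize nm c = N at *
  obtain ⟨x, y⟩ := a
  obtain ⟨z, w⟩ := c
  simp only at *
  -- the three traces
  set t1 := 2 * (x * z) - x * w - y * z + 2 * (y * w) with ht1
  set t2 := 2 * (x * (-w)) - x * (z - w) - y * (-w) + 2 * (y * (z - w)) with ht2
  have ht : t1 ^ 2 + t1 * t2 + t2 ^ 2 = 3 * N ^ 2 := by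
    have : t1 ^ 2 + t1 * t2 + t2 ^ 2 =
        3 * ((x ^ 2 - x * y + y ^ 2) * (z ^ 2 - z * w + w ^ 2)) := by
      rw [ht1, ht2]; ring
    rw [this, ← hcn, ← han]; ring
  have f1 : t1 ≤ N := by rw [ht1]; linarith
  have f2 : -N ≤ t1 := by rw [ht1]; linarith
  have f3 : t2 ≤ N := by rw [ht2]; linarith
  have f4 : -N ≤ t2 := by rw [ht2]; linarith
  have f5 : t1 + t2 ≤ N := by rw [ht1, ht2]; linarith
  have f6 : -N ≤ t1 + t2 := by rw [ht1, ht2]; linarith
  nlinarith [mul_nonneg (show 0 ≤ N - t1 by linarith) (show 0 ≤ N + t1 by linarith),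
    mul_nonneg (show 0 ≤ N - t2 by linarith) (show 0 ≤ N + t2 by linarith),
    mul_nonneg (show 0 ≤ N - (t1 + t2) by linarith) (show 0 ≤ N + (t1 + t2) by linarith)]

/-- the possible quotients are connected through unit steps -/
theorem step_connect (a c : O) (hc : c ≠ 0) (q q' : O) (h : nm (a - q * c) < nm c)
    (h' : nm (a - q' * c) < nm c) :
    q = q' ∨ nm (q - q') = 1 ∨
      ∃ p : O, nm (q - p) = 1 ∧ nm (p - q') = 1 ∧ nm (a - p * c) < nm c := by
  have hN := nm_pos hc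
  have h1 : nm (q' - q) * nm c < 4 * nm c := by
    rw [← nm_mul]
    have e : (q' - q) * c = (a - q * c) - (a - q' * c) := by ring
    rw [e]
    have := nm_par (a - q * c) (a - q' * c)
    have := nm_nonneg ((a - q * c) + (a - q' * c))
    linarith
  have h2 : nm (q' - q) < 4 := lt_of_mul_lt_mul_right h1 hN.le
  set d := q' - q with hd
  have hq' : q' = q + d := by rw [hd]; ring
  -- sum of the norms
  have key : ∀ v1 v2 : O, d = v1 + v2 → nm v1 = 1 → nm v2 = 1 → nm d = 3 →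
      ∃ p : O, nm (q - p) = 1 ∧ nm (p - q') = 1 ∧ nm (a - p * c) < nm c := by
    intro v1 v2 hv h3 h4 h5
    refine ⟨q + v1, ?_, ?_, ?_⟩
    · rw [show q - (q + v1) = -v1 by ring, nm_neg, h3]
    · rw [hq', hv, show q + v1 - (q + (v1 + v2)) = -v2 by ring, nm_neg, h4]
    · have e1 : a - q' * c = (a - q * c) - (v1 + v2) * c := by rw [hq', hv]; ring
      have e2 : a - (q + v1) * c = (a - q * c) - v1 * c := by ring
      rw [e1] at h'
      rw [e2]
      have id1 : nm (a - q * c - v1 * c) + nm (a - q * c - v2 * c) =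
          nm (a - q * c) + nm (a - q * c - (v1 + v2) * c) -
            (nm ((v1 + v2) * c) - nm (v1 * c) - nm (v2 * c)) := by
        unfold nm
        rw [add_mul]
        simp only [QuadraticAlgebra.re_sub, QuadraticAlgebra.im_sub, QuadraticAlgebra.re_add,
          QuadraticAlgebra.im_add]
        ring
      rw [nm_mul, nm_mul v1, nm_mul v2, h3, h4, ← hv, h5] at id1
      rw [← hv] at h'
      have := nm_nonneg (a - q * c - v2 * c)
      linarith
  have hb : nm d = d.re ^ 2 - d.re * d.im + d.im ^ 2 := rfl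
  have b1 : d.re ≤ 2 := by nlinarith [sq_nonneg (2 * d.im - d.re)]
  have b2 : -2 ≤ d.re := by nlinarith [sq_nonneg (2 * d.im - d.re)]
  have b3 : d.im ≤ 2 := by nlinarith [sq_nonneg (2 * d.re - d.im)]
  have b4 : -2 ≤ d.im := by nlinarith [sq_nonneg (2 * d.re - d.im)]
  have hcase : d = 0 ∨ nm d = 1 ∨ ∃ v1 v2 : O, d = v1 + v2 ∧ nm v1 = 1 ∧ nm v2 = 1 ∧
      nm d = 3 := by
    clear_value d
    clear hq' hb key h1
    obtain ⟨r, s⟩ := d
    simp only at b1 b2 b3 b4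
    have c1 : (⟨r, s⟩ : O) = 0 ∨ nm (⟨r, s⟩ : O) = 1 ∨ ((r = 2 ∧ s = 1) ∨ (r = 1 ∧ s = 2) ∨
        (r = 1 ∧ s = -1) ∨ (r = -2 ∧ s = -1) ∨ (r = -1 ∧ s = -2) ∨ (r = -1 ∧ s = 1)) := by
      interval_cases r <;> interval_cases s <;>
        first | (exfalso; revert h2; decide) | decide
    rcases c1 with c1 | c1 | c1
    · exact Or.inl c1
    · exact Or.inr (Or.inl c1)
    · right; right
      rcases c1 with ⟨rfl, rfl⟩ | ⟨rfl, rfl⟩ | ⟨rfl, rfl⟩ | ⟨rfl, rfl⟩ | ⟨rfl, rfl⟩ | ⟨rfl, rfl⟩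
      · exact ⟨⟨1, 0⟩, ⟨1, 1⟩, by decide, by decide, by decide, by decide⟩
      · exact ⟨⟨0, 1⟩, ⟨1, 1⟩, by decide, by decide, by decide, by decide⟩
      · exact ⟨⟨1, 0⟩, ⟨0, -1⟩, by decide, by decide, by decide, by decide⟩
      · exact ⟨⟨-1, 0⟩, ⟨-1, -1⟩, by decide, by decide, by decide, by decide⟩
      · exact ⟨⟨0, -1⟩, ⟨-1, -1⟩, by decide, by decide, by decide, by decide⟩
      · exact ⟨⟨-1, 0⟩, ⟨0, 1⟩, by decide, by decide, by decide, by decide⟩
  rcases hcase with hcase | hcase | ⟨v1, v2, hv, h3, h4, h5⟩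
  · left
    rw [hq', hcase, add_zero]
  · right; left
    rw [hq', show q - (q + d) = -d by ring, nm_neg, hcase]
  · right; right
    exact key v1 v2 hv h3 h4 h5

end Pool.Agent.F8.G
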