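import Pool.Agent.Lib.MP_305fdd_al.F8.G.Arith

/-!
# MP_305fdd_al, figure-eight project, block G: the presentation of `PSL₂(ℤ[ω])`

`A = mU 1`, `U = mU ω`, `J = mJ`, `B = mB`. For every group `Q` with elements satisfying the
relations `Rel` there is a homomorphism `SL₂(O) → Q` with these values (`pres`). The homomorphism
is defined with the Euclidean algorithm; the main point is that its value does not depend on the
choice of the quotients (`Good`).
-/

set_option autoImplicit false

namespace Pool.Agent.F8.G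

open scoped QuadraticAlgebra

/-! ### Entries -/

section entries

variable {R : Type} [CommRing R]

theorem SL_ext {g h : SL2 R} (h1 : g.val 0 0 = h.val 0 0) (h2 : g.val 0 1 = h.val 0 1)
    (h3 : g.val 1 0 = h.val 1 0) (h4 : g.val 1 1 = h.val 1 1) : g = h := by
  apply Subtype.ext
  ext i k
  fin_cases i <;> fin_cases k
  · exact h1
  · exact h2
  · exact h3
  · exact h4

theorem SL_mul (g h : SL2 R) (i k : Fin 2) :
    (g * h).val i k = g.val i 0 * h.val 0 k + g.val i 1 * h.val 1 k := by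
  rw [Matrix.SpecialLinearGroup.coe_mul, Matrix.mul_apply, Fin.sum_univ_two]

theorem SL_det (g : SL2 R) : g.val 0 0 * g.val 1 1 - g.val 0 1 * g.val 1 0 = 1 := by
  have := g.2
  rwa [Matrix.det_fin_two] at this

theorem SL_neg (g : SL2 R) (i k : Fin 2) : (-g).val i k = -(g.val i k) := rfl

theorem mU00 (x : R) : (mU x).val 0 0 = 1 := rfl
theorem mU01 (x : R) : (mU x).val 0 1 = x := rfl
theorem mU10 (x : R) : (mU x).val 1 0 = 0 := rfl
theorem mU11 (x : R) : (mU x).val 1 1 = 1 := rfl
theorem mB00 : (mB R).val 0 0 = 0 := rfl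
theorem mB01 : (mB R).val 0 1 = -1 := rfl
theorem mB10 : (mB R).val 1 0 = 1 := rfl
theorem mB11 : (mB R).val 1 1 = 0 := rfl
theorem mJ00 : (mJ R).val 0 0 = om R := rfl
theorem mJ01 : (mJ R).val 0 1 = 0 := rfl
theorem mJ10 : (mJ R).val 1 0 = 0 := rfl
theorem mJ11 : (mJ R).val 1 1 = om R * om R := rfl
theorem one00 : (1 : SL2 R).val 0 0 = 1 := rfl
theorem one01 : (1 : SL2 R).val 0 1 = 0 := rfl
theorem one10 : (1 : SL2 R).val 1 0 = 0 := rfl
theorem one11 : (1 : SL2 R).val 1 1 = 1 := rfl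

theorem U00 (x : R) (g : SL2 R) : (mU x * g).val 0 0 = g.val 0 0 + x * g.val 1 0 := by
  rw [SL_mul, mU00, mU01, one_mul]
theorem U01 (x : R) (g : SL2 R) : (mU x * g).val 0 1 = g.val 0 1 + x * g.val 1 1 := by
  rw [SL_mul, mU00, mU01, one_mul]
theorem U10 (x : R) (g : SL2 R) : (mU x * g).val 1 0 = g.val 1 0 := by
  rw [SL_mul, mU10, mU11, one_mul, zero_mul, zero_add]
theorem U11 (x : R) (g : SL2 R) : (mU x * g).val 1 1 = g.val 1 1 := by
  rw [SL_mul, mU10, mU11, one_mul, zero_mul, zero_add]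
theorem B00 (g : SL2 R) : (mB R * g).val 0 0 = -g.val 1 0 := by
  rw [SL_mul, mB00, mB01, zero_mul, zero_add, neg_one_mul]
theorem B01 (g : SL2 R) : (mB R * g).val 0 1 = -g.val 1 1 := by
  rw [SL_mul, mB00, mB01, zero_mul, zero_add, neg_one_mul]
theorem B10 (g : SL2 R) : (mB R * g).val 1 0 = g.val 0 0 := by
  rw [SL_mul, mB10, mB11, zero_mul, add_zero, one_mul]
theorem B11 (g : SL2 R) : (mB R * g).val 1 1 = g.val 0 1 := by
  rw [SL_mul, mB10, mB11, zero_mul, add_zero, one_mul]

theorem mU_add (x y : R) : mU (x + y) = mU x * mU y := by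
  apply SL_ext
  · rw [U00, mU00, mU00, mU10]; ring
  · rw [U01, mU01, mU01, mU11]; ring
  · rw [U10, mU10, mU10]
  · rw [U11, mU11, mU11]

theorem mU_zero : mU (0 : R) = 1 := by
  apply SL_ext <;> rfl

theorem BB : mB R * mB R = -1 := by
  apply SL_ext
  · rw [B00, mB10]; rfl
  · rw [B01, mB11, SL_neg, one01]
  · rw [B10, mB00, SL_neg, one10, neg_zero]
  · rw [B11, mB01]; rfl

end entries

/-! ### The relations -/

/-- the relations of `PSL₂(ℤ[ω])` -/
structure Rel (Q : Type) [Group Q] (al up j be : Q) : Prop where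
  c1 : al * up = up * al
  c2 : j * j * j = 1
  c3 : up * al * j * al = j
  c4 : j * up = al * j
  c5 : be * be = 1
  c6 : be * j * be * j = 1
  c7 : al * be * al * be * al * be = 1

section

variable {Q : Type} [Group Q] {al up j be : Q}

/-- the image of `mU x` -/
def ee (al up : Q) (x : O) : Q := al ^ x.re * up ^ x.im

theorem ee_zero : ee al up 0 = 1 := by
  unfold ee; simp

theorem om_re : (om ℤ).re = 0 := rfl
theorem om_im : (om ℤ).im = 1 := rfl

namespace Rel

variable (h : Rel Q al up j be)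
include h

theorem ee_add (x y : O) : ee al up (x + y) = ee al up x * ee al up y := by
  unfold ee
  have hc : Commute al up := h.c1
  rw [QuadraticAlgebra.re_add, QuadraticAlgebra.im_add, zpow_add, zpow_add]
  have h1 : al ^ y.re * up ^ x.im = up ^ x.im * al ^ y.re := (hc.zpow_zpow _ _).eq
  calc al ^ x.re * al ^ y.re * (up ^ x.im * up ^ y.im)
      = al ^ x.re * (al ^ y.re * up ^ x.im) * up ^ y.im := by group
    _ = _ := by rw [h1]; group

theorem ee_neg (x : O) : ee al up (-x) = (ee al up x)⁻¹ := by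
  apply eq_inv_of_mul_eq_one_left
  rw [← h.ee_add, neg_add_cancel, ee_zero]

theorem jal : j * al = (up * al)⁻¹ * j := by
  have := h.c3
  calc j * al = (up * al)⁻¹ * (up * al * j * al) := by group
    _ = _ := by rw [this]

/-- `j e(x) = e(ω² x) j` -/
theorem j_ee (x : O) : j * ee al up x = ee al up (om ℤ * om ℤ * x) * j := by
  have e1 : om ℤ * om ℤ * x = ⟨-x.re + x.im, -x.re⟩ := by
    apply O_ext
    · rw [O_re_mul, O_re_mul, O_im_mul, om_re, om_im]; ring
    · rw [O_im_mul, O_re_mul, O_im_mul, om_re, om_im]; ring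
  have h1 : SemiconjBy j al (al⁻¹ * up⁻¹) := by
    have := h.jal
    rw [mul_inv_rev] at this
    exact this
  have h2 : SemiconjBy j up al := h.c4
  have hc : Commute al up := h.c1
  have h3 := (h1.zpow_right x.re).mul_right (h2.zpow_right x.im)
  rw [e1]
  have h4 : (al⁻¹ * up⁻¹) ^ x.re * al ^ x.im = ee al up ⟨-x.re + x.im, -x.re⟩ := by
    unfold ee
    simp only
    rw [(hc.inv_inv).mul_zpow, inv_zpow, inv_zpow, zpow_add, zpow_neg, zpow_neg]
    have h5 : (up ^ x.re)⁻¹ * al ^ x.im = al ^ x.im * (up ^ x.re)⁻¹ :=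
      ((hc.symm.zpow_zpow _ _).inv_left).eq
    rw [mul_assoc, h5, mul_assoc]
  rw [← h4]
  exact h3

theorem bj : be * j = j⁻¹ * be := by
  have h6 := h.c6
  have h5 := h.c5
  have h5' : be⁻¹ = be := inv_eq_of_mul_eq_one_left h5
  have h7 : be * j * (be * j) = 1 := by rw [← mul_assoc]; exact h6
  have h8 : be * j = (be * j)⁻¹ := eq_inv_of_mul_eq_one_left h7
  rw [h8, mul_inv_rev, h5']

theorem be_inv : be⁻¹ = be := inv_eq_of_mul_eq_one_left h.c5

theorem j_inv : j⁻¹ = j * j := by
  apply inv_eq_of_mul_eq_one_right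
  rw [← mul_assoc]; exact h.c2

theorem al_rel : be * al * be = al⁻¹ * be * al⁻¹ := by
  have h7 := h.c7
  have hb := h.be_inv
  calc be * al * be = al⁻¹ * (al * be * al * be * al * be) * be⁻¹ * al⁻¹ := by group
    _ = al⁻¹ * be * al⁻¹ := by rw [h7, hb]; group

/-- the relations for the six units `v`, `u = v⁻¹` -/
theorem unit_rel (v : O) (hv : nm v = 1) : ∃ (u : O) (k : ℕ), u * v = 1 ∧ nm u = 1 ∧
    (mB O * mU v * mB O = mU (-u) * mJ ℤ ^ k * mB O * mU (-u) ∨
      mB O * mU v * mB O = -(mU (-u) * mJ ℤ ^ k * mB O * mU (-u))) ∧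
    be * ee al up v * be = ee al up (-u) * j ^ k * be * ee al up (-u) := by
  have hbj := h.bj
  have hb := h.be_inv
  have hj := h.j_inv
  have hal := h.al_rel
  have e1 : ee al up (1 : O) = al := by unfold ee; simp
  have e2 : ee al up (⟨0, 1⟩ : O) = up := by unfold ee; simp
  have e3 : ee al up (⟨-1, -1⟩ : O) = al⁻¹ * up⁻¹ := by unfold ee; simp
  -- `up = j⁻¹ al j`, `al⁻¹ up⁻¹ = j al j⁻¹`
  have f1 : up = j⁻¹ * al * j := by
    have := h.c4
    calc up = j⁻¹ * (j * up) := by group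
      _ = _ := by rw [this]; group
  have f2 : al⁻¹ * up⁻¹ = j * al * j⁻¹ := by
    have := h.jal
    rw [this]; group
  have g1 : be * j⁻¹ = j * be := by
    have := congrArg (fun x => x⁻¹) hbj
    simp only [mul_inv_rev, inv_inv, hb] at this
    calc be * j⁻¹ = be * (j⁻¹ * be) * be := by rw [mul_assoc, mul_assoc, h.c5, mul_one]
      _ = be * (be * j) * be := by rw [hbj]
      _ = (be * be) * j * be := by group
      _ = _ := by rw [h.c5]; group
  have jjj := h.c2
  -- v = ω
  have r2 : be * up * be = (al⁻¹ * up⁻¹)⁻¹ * (j * j) * be * (al⁻¹ * up⁻¹)⁻¹ := by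
    rw [f2]
    calc be * up * be = (be * j⁻¹) * al * (j * be) := by nth_rewrite 1 [f1]; group
      _ = (j * be) * al * (be * j⁻¹) := by rw [g1]
      _ = j * (be * al * be) * j⁻¹ := by group
      _ = j * al⁻¹ * j⁻¹ * (j * (be * j⁻¹)) * j * al⁻¹ * j⁻¹ := by rw [hal]; group
      _ = _ := by rw [g1]; group
  -- v = ω²
  have r3 : be * (al⁻¹ * up⁻¹) * be = up⁻¹ * j * be * up⁻¹ := by
    calc be * (al⁻¹ * up⁻¹) * be = (be * j) * al * (j⁻¹ * be) := by rw [f2]; group
      _ = (j⁻¹ * be) * al * (be * j) := by rw [hbj]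
      _ = j⁻¹ * (be * al * be) * j := by group
      _ = j⁻¹ * al⁻¹ * j * (j⁻¹ * (be * j)) * j⁻¹ * al⁻¹ * j := by rw [hal]; group
      _ = j⁻¹ * al⁻¹ * j * (j⁻¹ * j⁻¹) * be * (j⁻¹ * al⁻¹ * j) := by rw [hbj]; group
      _ = j⁻¹ * al⁻¹ * j * j * be * (j⁻¹ * al⁻¹ * j) := by
          have : j⁻¹ * j⁻¹ = j := by
            rw [hj]
            calc j * j * (j * j) = (j * j * j) * j := by group
              _ = j := by rw [jjj, one_mul]
          rw [this]
      _ = _ := by
          rw [f1]; group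
  -- passage to the inverse
  have neg : ∀ (v u : O) (k : ℕ), be * ee al up v * be =
      ee al up (-u) * j ^ k * be * ee al up (-u) →
      be * ee al up (-v) * be = ee al up (- -u) * j ^ k * be * ee al up (- -u) := by
    intro v u k hvu
    have := congrArg (fun x => x⁻¹) hvu
    simp only [mul_inv_rev, hb] at this
    rw [h.ee_neg v, h.ee_neg (-u)]
    have hk : ∀ k : ℕ, be * (j ^ k)⁻¹ = j ^ k * be := by
      intro k
      induction k with
      | zero => simp
      | succ k ih =>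
        rw [pow_succ, mul_inv_rev]
        calc be * (j⁻¹ * (j ^ k)⁻¹) = (be * j⁻¹) * (j ^ k)⁻¹ := by group
          _ = j * (be * (j ^ k)⁻¹) := by rw [g1]; group
          _ = _ := by rw [ih]; group
    calc be * (ee al up v)⁻¹ * be = be * ((ee al up v)⁻¹ * be) := by group
      _ = (ee al up (-u))⁻¹ * (be * ((j ^ k)⁻¹ * (ee al up (-u))⁻¹)) := this
      _ = (ee al up (-u))⁻¹ * (be * (j ^ k)⁻¹) * (ee al up (-u))⁻¹ := by group
      _ = _ := by rw [hk]; group
  rcases unit_cases hv with rfl | rfl | rfl | rfl | rfl | rfl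
  · refine ⟨1, 0, by decide, by decide, ?_, ?_⟩
    · left
      apply SL_ext <;> simp only [SL_mul, mU00, mU01, mU10, mU11, mB00, mB01, mB10, mB11, pow_zero,
        one00, one01, one10, one11] <;> decide
    · rw [h.ee_neg, e1, pow_zero, mul_one, hal]
  · refine ⟨-1, 0, by decide, by decide, ?_, ?_⟩
    · right
      apply SL_ext <;> simp only [SL_mul, mU00, mU01, mU10, mU11, mB00, mB01, mB10, mB11, pow_zero,
        one00, one01, one10, one11, SL_neg] <;> decide
    · apply neg
      rw [h.ee_neg, e1, pow_zero, mul_one, hal]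
  · refine ⟨⟨-1, -1⟩, 2, by decide, by decide, ?_, ?_⟩
    · left
      apply SL_ext <;> simp only [SL_mul, mU00, mU01, mU10, mU11, mB00, mB01, mB10, mB11, pow_two,
        mJ00, mJ01, mJ10, mJ11] <;> decide
    · rw [h.ee_neg, e2, e3, pow_two, r2]
  · refine ⟨-⟨-1, -1⟩, 2, by decide, by decide, ?_, ?_⟩
    · right
      apply SL_ext <;> simp only [SL_mul, mU00, mU01, mU10, mU11, mB00, mB01, mB10, mB11, pow_two,
        mJ00, mJ01, mJ10, mJ11, SL_neg] <;> decide
    · apply neg
      rw [h.ee_neg, e2, e3, pow_two, r2]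
  · refine ⟨⟨0, 1⟩, 1, by decide, by decide, ?_, ?_⟩
    · left
      apply SL_ext <;> simp only [SL_mul, mU00, mU01, mU10, mU11, mB00, mB01, mB10, mB11, pow_one,
        mJ00, mJ01, mJ10, mJ11] <;> decide
    · rw [h.ee_neg, e2, e3, pow_one, r3]
  · refine ⟨-⟨0, 1⟩, 1, by decide, by decide, ?_, ?_⟩
    · right
      apply SL_ext <;> simp only [SL_mul, mU00, mU01, mU10, mU11, mB00, mB01, mB10, mB11, pow_one,
        mJ00, mJ01, mJ10, mJ11, SL_neg] <;> decide
    · apply neg
      rw [h.ee_neg, e2, e3, pow_one, r3]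

end Rel

end

end Pool.Agent.F8.G
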