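import Pool.Agent.Lib.MP_305fdd_al.F8.G.Pres

/-!
# MP_305fdd_al, figure-eight project, block G: the presentation of `PSL₂(ℤ[ω])`, second part

The function defined by the Euclidean algorithm and its equivariance.
-/

set_option autoImplicit false

namespace Pool.Agent.F8.G

open scoped QuadraticAlgebra

section

variable {Q : Type} [Group Q] {al up j be : Q}

/-- the exponent of `J` for a unit -/
def dd (a : O) : ℕ := if a = 1 ∨ a = -1 then 0 else if a = ⟨0, 1⟩ ∨ a = -⟨0, 1⟩ then 1 else 2

/-- the value at an upper triangular matrix -/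
def T0 (al up j : Q) (g : SL2 O) : Q :=
  ee al up (g.val 0 1 * g.val 0 0) * j ^ dd (g.val 0 0)

open Classical in
/-- a quotient -/
noncomputable def qq (g : SL2 O) : O :=
  if h : g.val 1 0 = 0 then 0 else Classical.choose (O_div (g.val 0 0) (g.val 1 0) h)

theorem qq_spec (g : SL2 O) (h : g.val 1 0 ≠ 0) :
    nm (g.val 0 0 - qq g * g.val 1 0) < nm (g.val 1 0) := by
  unfold qq
  rw [dif_neg h]
  exact Classical.choose_spec (O_div (g.val 0 0) (g.val 1 0) h)

theorem BU10 (q : O) (g : SL2 O) :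
    (mB O * (mU (-q) * g)).val 1 0 = g.val 0 0 - q * g.val 1 0 := by
  rw [B10, U00]; ring

theorem BU00 (q : O) (g : SL2 O) : (mB O * (mU (-q) * g)).val 0 0 = -g.val 1 0 := by
  rw [B00, U10]

open Classical in
/-- the function defined by the Euclidean algorithm -/
noncomputable def FF (al up j be : Q) (g : SL2 O) : Q :=
  if _h : g.val 1 0 = 0 then T0 al up j g
  else ee al up (qq g) * be * FF al up j be (mB O * (mU (-(qq g)) * g))
termination_by (nm (g.val 1 0)).toNat
decreasing_by
  rw [BU10]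
  have h1 := qq_spec g _h
  have h2 := nm_nonneg (g.val 0 0 - qq g * g.val 1 0)
  omega

/-- the two equations of `FF` -/
structure IsFF (al up j be : Q) (F : SL2 O → Q) : Prop where
  z : ∀ g, g.val 1 0 = 0 → F g = T0 al up j g
  s : ∀ g, g.val 1 0 ≠ 0 → F g = ee al up (qq g) * be * F (mB O * (mU (-(qq g)) * g))

theorem isFF (al up j be : Q) : IsFF al up j be (FF al up j be) where
  z := fun g h => by rw [FF, dif_pos h]
  s := fun g h => by
    conv_lhs => rw [FF, dif_neg h]

/-- the statement of the induction -/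
structure Good (al up j be : Q) (F : SL2 O → Q) (m : ℕ) : Prop where
  I : ∀ g, nm (g.val 1 0) ≤ m → g.val 1 0 ≠ 0 → ∀ q,
    nm (g.val 0 0 - q * g.val 1 0) < nm (g.val 1 0) →
    F g = ee al up q * be * F (mB O * (mU (-q) * g))
  U : ∀ g, nm (g.val 1 0) ≤ m → ∀ x, F (mU x * g) = ee al up x * F g
  J : ∀ g, nm (g.val 1 0) ≤ m → F (mJ ℤ * g) = j * F g
  N : ∀ g, nm (g.val 1 0) ≤ m → F (-g) = F g
  B : ∀ g, nm (g.val 0 0) ≤ m → nm (g.val 1 0) ≤ m → F (mB O * g) = be * F g

theorem J00 (g : SL2 O) : (mJ ℤ * g).val 0 0 = om ℤ * g.val 0 0 := by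
  rw [SL_mul, mJ00, mJ01, zero_mul, add_zero]
theorem J01 (g : SL2 O) : (mJ ℤ * g).val 0 1 = om ℤ * g.val 0 1 := by
  rw [SL_mul, mJ00, mJ01, zero_mul, add_zero]
theorem J10 (g : SL2 O) : (mJ ℤ * g).val 1 0 = om ℤ * om ℤ * g.val 1 0 := by
  rw [SL_mul, mJ10, mJ11, zero_mul, zero_add]
theorem J11 (g : SL2 O) : (mJ ℤ * g).val 1 1 = om ℤ * om ℤ * g.val 1 1 := by
  rw [SL_mul, mJ10, mJ11, zero_mul, zero_add]

theorem nm_om : nm (om ℤ) = 1 := by decide

theorem nm_J10 (g : SL2 O) : nm ((mJ ℤ * g).val 1 0) = nm (g.val 1 0) := by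
  rw [J10, nm_mul, nm_mul, nm_om]; ring

theorem dd_om {a : O} (h : nm a = 1) (hj : j * j * j = 1) :
    j ^ dd (om ℤ * a) = j * j ^ dd a := by
  rcases unit_cases h with rfl | rfl | rfl | rfl | rfl | rfl
  · rw [show dd (om ℤ * 1) = 1 by decide, show dd (1 : O) = 0 by decide, pow_zero, pow_one, mul_one]
  · rw [show dd (om ℤ * (-1)) = 1 by decide, show dd (-1 : O) = 0 by decide, pow_zero, pow_one,
      mul_one]
  · rw [show dd (om ℤ * ⟨0, 1⟩) = 2 by decide, show dd (⟨0, 1⟩ : O) = 1 by decide, pow_one, pow_two]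
  · rw [show dd (om ℤ * (-⟨0, 1⟩)) = 2 by decide, show dd (-⟨0, 1⟩ : O) = 1 by decide, pow_one,
      pow_two]
  · rw [show dd (om ℤ * ⟨-1, -1⟩) = 0 by decide, show dd (⟨-1, -1⟩ : O) = 2 by decide, pow_zero,
      pow_two, ← mul_assoc, hj]
  · rw [show dd (om ℤ * (-⟨-1, -1⟩)) = 0 by decide, show dd (-⟨-1, -1⟩ : O) = 2 by decide, pow_zero,
      pow_two, ← mul_assoc, hj]

theorem dd_neg {a : O} (h : nm a = 1) : dd (-a) = dd a := by
  rcases unit_cases h with rfl | rfl | rfl | rfl | rfl | rfl <;> decide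

theorem BBg (g : SL2 O) : mB O * (mB O * g) = -g := by
  rw [← mul_assoc, BB, neg_one_mul]

theorem UUg (x y : O) (g : SL2 O) : mU x * (mU y * g) = mU (x + y) * g := by
  rw [← mul_assoc, ← mU_add]

theorem U_J (x : O) (g : SL2 O) :
    mU (om ℤ * om ℤ * x) * (mJ ℤ * g) = mJ ℤ * (mU x * g) := by
  have e : om ℤ * om ℤ * (om ℤ * om ℤ) = om ℤ := by decide
  apply SL_ext
  · rw [U00, J00, J10, J00, U00]
    linear_combination (x * g.val 1 0) * e
  · rw [U01, J01, J11, J01, U01]
    linear_combination (x * g.val 1 1) * e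
  · rw [U10, J10, J10, U10]
  · rw [U11, J11, J11, U11]

theorem B_J (g : SL2 O) : mB O * (mJ ℤ * g) = mJ ℤ * (mJ ℤ * (mB O * g)) := by
  have e : om ℤ * om ℤ * (om ℤ * om ℤ) = om ℤ := by decide
  apply SL_ext
  · rw [B00, J10, J00, J00, B00]; ring
  · rw [B01, J11, J01, J01, B01]; ring
  · rw [B10, J00, J10, J10, B10]
    linear_combination (-g.val 0 0) * e
  · rw [B11, J01, J11, J11, B11]
    linear_combination (-g.val 0 1) * e

variable {F : SL2 O → Q}

theorem Good.Jpow {m : ℕ} (h : Good al up j be F m) (g : SL2 O) (hg : nm (g.val 1 0) ≤ m)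
    (k : ℕ) : F (mJ ℤ ^ k * g) = j ^ k * F g ∧ nm ((mJ ℤ ^ k * g).val 1 0) = nm (g.val 1 0) := by
  induction k with
  | zero => simp
  | succ k ih =>
    obtain ⟨h1, h2⟩ := ih
    have e : mJ ℤ ^ (k + 1) * g = mJ ℤ * (mJ ℤ ^ k * g) := by rw [pow_succ']; group
    rw [e]
    refine ⟨?_, ?_⟩
    · rw [h.J _ (by rw [h2]; exact hg), h1, pow_succ']; group
    · rw [nm_J10, h2]

/-- the main computation: the values at `B T^v B⁻¹ h` -/
theorem Good.turn {m : ℕ} (hr : Rel Q al up j be) (h : Good al up j be F m) (v : O)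
    (hv : nm v = 1) (y : SL2 O)
    (hB : ∀ u : O, u * v = 1 → F (mB O * (mU (-u) * (mB O * y))) =
      be * F (mU (-u) * (mB O * y)))
    (h0 : nm (y.val 0 0) ≤ m)
    (h1 : nm (y.val 0 0 + v * y.val 1 0) ≤ m) :
    F (mB O * (mU v * y)) = be * ee al up v * be * F (mB O * y) := by
  obtain ⟨u, k, huv, hu, hm, hq⟩ := hr.unit_rel v hv
  have e0 : mB O * (mU v * y) = -(mB O * mU v * mB O * (mB O * y)) := by
    have : mB O * mU v * mB O * (mB O * y) = mB O * (mU v * (mB O * (mB O * y))) := by group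
    rw [this, BBg]
    rw [mul_neg, mul_neg, neg_neg]
  have e1 : (mU (-u) * mJ ℤ ^ k * mB O * mU (-u)) * (mB O * y) =
      mU (-u) * (mJ ℤ ^ k * (mB O * (mU (-u) * (mB O * y)))) := by group
  have hlow : nm ((mB O * (mU (-u) * (mB O * y))).val 1 0) ≤ m := by
    rw [BU10, B00, B10]
    have : -y.val 1 0 - u * y.val 0 0 = -(u * (y.val 0 0 + v * y.val 1 0)) := by
      linear_combination (y.val 1 0) * huv
    rw [this, nm_neg, nm_mul, hu, one_mul]
    exact h1
  obtain ⟨j1, j2⟩ := h.Jpow (mB O * (mU (-u) * (mB O * y))) hlow k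
  have hval : F (mU (-u) * (mJ ℤ ^ k * (mB O * (mU (-u) * (mB O * y))))) =
      be * ee al up v * be * F (mB O * y) := by
    rw [h.U _ (by rw [j2]; exact hlow), j1, hB u huv, h.U (mB O * y) (by rw [B10]; exact h0), hq]
    group
  have hlow2 : nm ((mU (-u) * (mJ ℤ ^ k * (mB O * (mU (-u) * (mB O * y))))).val 1 0) ≤ m := by
    rw [U10, j2]; exact hlow
  rw [e0]
  rcases hm with hm | hm
  · rw [hm, e1, h.N _ hlow2, hval]
  · rw [hm, neg_mul, neg_neg, e1, hval]

/-- the step of the induction -/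
theorem good_succ (hr : Rel Q al up j be) (hF : IsFF al up j be F) {m : ℕ}
    (h : Good al up j be F m) : Good al up j be F (m + 1) := by
  have hb := hr.be_inv
  have hbb : ∀ x : Q, be * (be * x) = x := fun x => by rw [← mul_assoc, hr.c5, one_mul]
  -- unit steps
  have key : ∀ g : SL2 O, nm (g.val 1 0) ≤ (m + 1 : ℕ) → g.val 1 0 ≠ 0 → ∀ q v : O, nm v = 1 →
      nm (g.val 0 0 - q * g.val 1 0) < nm (g.val 1 0) →
      nm (g.val 0 0 - (q - v) * g.val 1 0) < nm (g.val 1 0) →
      ee al up q * be * F (mB O * (mU (-q) * g)) =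
        ee al up (q - v) * be * F (mB O * (mU (-(q - v)) * g)) := by
    intro g hg hc q v hv h1 h2
    push_cast at hg
    have e1 : mU (-(q - v)) * g = mU v * (mU (-q) * g) := by
      rw [UUg]; congr 2; ring
    have h3 : F (mB O * (mU v * (mU (-q) * g))) =
        be * ee al up v * be * F (mB O * (mU (-q) * g)) := by
      apply h.turn hr v hv
      · intro u huv
        apply h.B
        · rw [U00, B00, B10, U00, U10]
          have : -g.val 1 0 + -u * (g.val 0 0 + -q * g.val 1 0) =
              -(u * (g.val 0 0 - (q - v) * g.val 1 0)) := by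
            linear_combination (g.val 1 0) * huv
          have hu : nm u = 1 := by
            have := congrArg nm huv
            rw [nm_mul, hv, mul_one, nm_one] at this
            exact this
          rw [this, nm_neg, nm_mul, hu, one_mul]
          omega
        · rw [U10, B10, U00]
          have : g.val 0 0 + -q * g.val 1 0 = g.val 0 0 - q * g.val 1 0 := by ring
          rw [this]
          omega
      · rw [U00]
        have : g.val 0 0 + -q * g.val 1 0 = g.val 0 0 - q * g.val 1 0 := by ring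
        rw [this]
        omega
      · rw [U00, U10]
        have : g.val 0 0 + -q * g.val 1 0 + v * g.val 1 0 =
            g.val 0 0 - (q - v) * g.val 1 0 := by ring
        rw [this]
        omega
    rw [e1, h3, show q - v = q + -v by ring, hr.ee_add, hr.ee_neg]
    calc ee al up q * be * F (mB O * (mU (-q) * g))
        = ee al up q * (ee al up v)⁻¹ * (ee al up v * be * F (mB O * (mU (-q) * g))) := by group
      _ = ee al up q * (ee al up v)⁻¹ * (be * (be * (ee al up v * be *
          F (mB O * (mU (-q) * g))))) := by rw [hbb]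
      _ = _ := by group
  have key2 : ∀ g : SL2 O, nm (g.val 1 0) ≤ (m + 1 : ℕ) → g.val 1 0 ≠ 0 → ∀ q q' : O,
      nm (q - q') = 1 →
      nm (g.val 0 0 - q * g.val 1 0) < nm (g.val 1 0) →
      nm (g.val 0 0 - q' * g.val 1 0) < nm (g.val 1 0) →
      ee al up q * be * F (mB O * (mU (-q) * g)) =
        ee al up q' * be * F (mB O * (mU (-q') * g)) := by
    intro g hg hc q q' hv h1 h2
    have := key g hg hc q (q - q') hv h1 (by rw [sub_sub_cancel]; exact h2)
    rwa [sub_sub_cancel] at this
  have I' : ∀ g : SL2 O, nm (g.val 1 0) ≤ (m + 1 : ℕ) → g.val 1 0 ≠ 0 → ∀ q : O,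
      nm (g.val 0 0 - q * g.val 1 0) < nm (g.val 1 0) →
      F g = ee al up q * be * F (mB O * (mU (-q) * g)) := by
    intro g hg hc q hq
    rw [hF.s g hc]
    rcases step_connect (g.val 0 0) (g.val 1 0) hc (qq g) q (qq_spec g hc) hq with
      h1 | h1 | ⟨p, h1, h2, h3⟩
    · rw [h1]
    · exact key2 g hg hc _ _ h1 (qq_spec g hc) hq
    · rw [key2 g hg hc _ _ h1 (qq_spec g hc) h3, key2 g hg hc _ _ h2 h3 hq]
  -- upper triangular matrices
  have hdet : ∀ g : SL2 O, g.val 1 0 = 0 → g.val 0 0 * g.val 1 1 = 1 ∧ nm (g.val 0 0) = 1 := by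
    intro g hg
    have h1 := SL_det g
    rw [hg, mul_zero, sub_zero] at h1
    refine ⟨h1, ?_⟩
    have h2 := congrArg nm h1
    rw [nm_mul, nm_one] at h2
    have h3 := nm_nonneg (g.val 0 0)
    have h4 := nm_nonneg (g.val 1 1)
    exact Int.eq_one_of_mul_eq_one_right h3 h2
  have U' : ∀ g : SL2 O, nm (g.val 1 0) ≤ (m + 1 : ℕ) → ∀ x,
      F (mU x * g) = ee al up x * F g := by
    intro g hg x
    by_cases hc : g.val 1 0 = 0
    · rw [hF.z g hc, hF.z _ (by rw [U10]; exact hc)]
      unfold T0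
      rw [U01, U00, hc, mul_zero, add_zero]
      obtain ⟨h1, h2⟩ := hdet g hc
      have : (g.val 0 1 + x * g.val 1 1) * g.val 0 0 = x + g.val 0 1 * g.val 0 0 := by
        linear_combination x * h1
      rw [this, hr.ee_add, mul_assoc]
    · have hq := qq_spec g hc
      rw [hF.s g hc, I' (mU x * g) (by rw [U10]; exact hg) (by rw [U10]; exact hc) (x + qq g)
        (by
          rw [U00, U10]
          have : g.val 0 0 + x * g.val 1 0 - (x + qq g) * g.val 1 0 =
            g.val 0 0 - qq g * g.val 1 0 := by ring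
          rw [this]; exact hq)]
      rw [UUg, show -(x + qq g) + x = -qq g by ring, hr.ee_add]
      group
  have J' : ∀ g : SL2 O, nm (g.val 1 0) ≤ (m + 1 : ℕ) → F (mJ ℤ * g) = j * F g := by
    intro g hg
    by_cases hc : g.val 1 0 = 0
    · rw [hF.z g hc, hF.z _ (by rw [J10, hc, mul_zero])]
      obtain ⟨h1, h2⟩ := hdet g hc
      unfold T0
      rw [J01, J00, dd_om h2 hr.c2]
      have e1 : om ℤ * g.val 0 1 * (om ℤ * g.val 0 0) =
          om ℤ * om ℤ * (g.val 0 1 * g.val 0 0) := by ring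
      rw [e1]
      calc ee al up (om ℤ * om ℤ * (g.val 0 1 * g.val 0 0)) * (j * j ^ dd (g.val 0 0))
          = (ee al up (om ℤ * om ℤ * (g.val 0 1 * g.val 0 0)) * j) * j ^ dd (g.val 0 0) := by
            group
        _ = (j * ee al up (g.val 0 1 * g.val 0 0)) * j ^ dd (g.val 0 0) := by
            rw [← hr.j_ee]
        _ = _ := by rw [mul_assoc]
    · have hq := qq_spec g hc
      have hoo : om ℤ * om ℤ ≠ 0 := by decide
      have hne : (mJ ℤ * g).val 1 0 ≠ 0 := by
        intro h0
        have h1 := nm_J10 g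
        rw [h0, nm_zero] at h1
        exact hc (nm_eq_zero h1.symm)
      rw [hF.s g hc, I' (mJ ℤ * g) (by rw [nm_J10]; exact hg) hne (om ℤ * om ℤ * qq g)
        (by
          rw [nm_J10, J00, J10]
          have e : om ℤ * om ℤ * (om ℤ * om ℤ) = om ℤ := by decide
          have : om ℤ * g.val 0 0 - om ℤ * om ℤ * qq g * (om ℤ * om ℤ * g.val 1 0) =
              om ℤ * (g.val 0 0 - qq g * g.val 1 0) := by
            linear_combination (-(qq g * g.val 1 0)) * e
          rw [this, nm_mul, nm_om, one_mul]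
          exact hq)]
      rw [show -(om ℤ * om ℤ * qq g) = om ℤ * om ℤ * (-qq g) by ring, U_J, B_J]
      have hlow : nm ((mB O * (mU (-qq g) * g)).val 1 0) ≤ m := by
        rw [BU10]
        push_cast at hg
        omega
      rw [h.J _ (by rw [nm_J10]; exact hlow), h.J _ hlow]
      have g1 : be * (j * j) = j * be := by
        calc be * (j * j) = (be * j) * j := by group
          _ = (j⁻¹ * be) * j := by rw [hr.bj]
          _ = j⁻¹ * (be * j) := by group
          _ = j⁻¹ * (j⁻¹ * be) := by rw [hr.bj]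
          _ = (j⁻¹ * j⁻¹) * be := by group
          _ = j * be := by
              have : j⁻¹ * j⁻¹ = j := by
                rw [hr.j_inv]
                calc j * j * (j * j) = (j * j * j) * j := by group
                  _ = j := by rw [hr.c2, one_mul]
              rw [this]
      calc ee al up (om ℤ * om ℤ * qq g) * be * (j * (j * F (mB O * (mU (-qq g) * g))))
          = ee al up (om ℤ * om ℤ * qq g) * (be * (j * j)) * F (mB O * (mU (-qq g) * g)) := by
            group
        _ = (ee al up (om ℤ * om ℤ * qq g) * j) * be * F (mB O * (mU (-qq g) * g)) := by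
            rw [g1]; group
        _ = _ := by rw [← hr.j_ee]; group
  have N' : ∀ g : SL2 O, nm (g.val 1 0) ≤ (m + 1 : ℕ) → F (-g) = F g := by
    intro g hg
    by_cases hc : g.val 1 0 = 0
    · rw [hF.z g hc, hF.z _ (by rw [SL_neg, hc, neg_zero])]
      obtain ⟨h1, h2⟩ := hdet g hc
      unfold T0
      rw [SL_neg, SL_neg, dd_neg h2, neg_mul_neg]
    · have hq := qq_spec g hc
      rw [hF.s g hc, I' (-g) (by rw [SL_neg, nm_neg]; exact hg)
        (by rw [SL_neg]; exact neg_ne_zero.2 hc) (qq g)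
        (by
          rw [SL_neg, SL_neg, nm_neg]
          have : -g.val 0 0 - qq g * -g.val 1 0 = -(g.val 0 0 - qq g * g.val 1 0) := by ring
          rw [this, nm_neg]; exact hq)]
      rw [mul_neg, mul_neg, h.N _ (by
        rw [BU10]
        push_cast at hg
        omega)]
  refine ⟨I', U', J', N', ?_⟩
  -- the flip
  have h0' : mU (-(0 : O)) = 1 := by rw [neg_zero, mU_zero]
  have caseA : ∀ g : SL2 O, nm (g.val 0 0) < nm (g.val 1 0) → nm (g.val 1 0) ≤ (m + 1 : ℕ) →
      F (mB O * g) = be * F g := by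
    intro g h1 h2
    have hc : g.val 1 0 ≠ 0 := by
      intro h0
      rw [h0, nm_zero] at h1
      have := nm_nonneg (g.val 0 0)
      omega
    have := I' g h2 hc 0 (by rw [zero_mul, sub_zero]; exact h1)
    rw [ee_zero, one_mul, h0', one_mul] at this
    rw [this, hbb]
  have caseB : ∀ g : SL2 O, nm (g.val 1 0) < nm (g.val 0 0) → nm (g.val 0 0) ≤ (m + 1 : ℕ) →
      F (mB O * g) = be * F g := by
    intro g h1 h2
    have hc : (mB O * g).val 1 0 ≠ 0 := by
      intro h0
      rw [B10] at h0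
      rw [h0, nm_zero] at h1
      have := nm_nonneg (g.val 1 0)
      omega
    have := I' (mB O * g) (by rw [B10]; exact h2) hc 0 (by
      rw [zero_mul, sub_zero, B00, B10, nm_neg]; exact h1)
    rw [ee_zero, one_mul, h0', one_mul, BBg, N' g (by omega)] at this
    exact this
  intro g ha hc
  rcases lt_trichotomy (nm (g.val 0 0)) (nm (g.val 1 0)) with h1 | h1 | h1
  · exact caseA g h1 hc
  · have hc0 : g.val 1 0 ≠ 0 := by
      intro h0
      rw [h0, nm_zero] at h1
      have h2 := nm_eq_zero h1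
      have h3 := SL_det g
      rw [h0, h2] at h3
      simp at h3
    obtain ⟨v, hv, hv2⟩ := unit_step (g.val 0 0) (g.val 1 0) hc0 h1
    obtain ⟨y, hy⟩ : ∃ y, y = mU (-v) * g := ⟨_, rfl⟩
    have hgy : g = mU v * y := by
      rw [hy, UUg, add_neg_cancel, mU_zero, one_mul]
    have y00 : y.val 0 0 = g.val 0 0 - v * g.val 1 0 := by rw [hy, U00]; ring
    have y10 : y.val 1 0 = g.val 1 0 := by rw [hy, U10]
    have hG : Good al up j be F m := h
    -- value of `F` at `g`
    have f1 : F g = ee al up v * F y := by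
      conv_lhs => rw [hgy]
      exact U' y (by rw [y10]; exact hc) v
    have f2 : F (mB O * y) = be * F y := caseA y (by rw [y00, y10]; exact hv2) (by
      rw [y10]; exact hc)
    -- value of `F` at `B g`
    obtain ⟨u, k, huv, hu, hm, hq⟩ := hr.unit_rel v hv
    have e0 : mB O * g = -(mB O * mU v * mB O * (mB O * y)) := by
      have : mB O * mU v * mB O * (mB O * y) = mB O * (mU v * (mB O * (mB O * y))) := by group
      rw [this, BBg, mul_neg, mul_neg, neg_neg, ← hgy]
    have e1 : (mU (-u) * mJ ℤ ^ k * mB O * mU (-u)) * (mB O * y) =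
        mU (-u) * (mJ ℤ ^ k * (mB O * (mU (-u) * (mB O * y)))) := by group
    have hz00 : (mU (-u) * (mB O * y)).val 0 0 = -(u * g.val 0 0) := by
      rw [U00, B00, B10, y00, y10]
      linear_combination (g.val 1 0) * huv
    have hz10 : (mU (-u) * (mB O * y)).val 1 0 = g.val 0 0 - v * g.val 1 0 := by
      rw [U10, B10, y00]
    have hlow : nm ((mB O * (mU (-u) * (mB O * y))).val 1 0) ≤ (m + 1 : ℕ) := by
      rw [B10, hz00, nm_neg, nm_mul, hu, one_mul]
      exact ha
    have hJ : ∀ k : ℕ, F (mJ ℤ ^ k * (mB O * (mU (-u) * (mB O * y)))) =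
        j ^ k * F (mB O * (mU (-u) * (mB O * y))) ∧
        nm ((mJ ℤ ^ k * (mB O * (mU (-u) * (mB O * y)))).val 1 0) =
          nm ((mB O * (mU (-u) * (mB O * y))).val 1 0) := by
      intro k
      induction k with
      | zero => simp
      | succ k ih =>
        obtain ⟨i1, i2⟩ := ih
        have e : mJ ℤ ^ (k + 1) * (mB O * (mU (-u) * (mB O * y))) =
            mJ ℤ * (mJ ℤ ^ k * (mB O * (mU (-u) * (mB O * y)))) := by rw [pow_succ']; group
        rw [e]
        refine ⟨?_, ?_⟩
        · rw [J' _ (by rw [i2]; exact hlow), i1, pow_succ']; group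
        · rw [nm_J10, i2]
    have hval : F (mU (-u) * (mJ ℤ ^ k * (mB O * (mU (-u) * (mB O * y))))) =
        be * ee al up v * be * F (mB O * y) := by
      rw [U' _ (by rw [(hJ k).2]; exact hlow), (hJ k).1,
        caseB (mU (-u) * (mB O * y))
          (by
            rw [hz10, hz00, nm_neg, nm_mul, hu, one_mul, h1]
            exact hv2)
          (by
            rw [hz00, nm_neg, nm_mul, hu, one_mul]
            exact ha),
        U' (mB O * y) (by rw [B10, y00]; omega), hq]
      group
    have hlow2 : nm ((mU (-u) * (mJ ℤ ^ k * (mB O * (mU (-u) * (mB O * y))))).val 1 0) ≤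
        (m + 1 : ℕ) := by
      rw [U10, (hJ k).2]; exact hlow
    have f3 : F (mB O * g) = be * ee al up v * be * F (mB O * y) := by
      rw [e0]
      rcases hm with hm | hm
      · rw [hm, e1, N' _ hlow2, hval]
      · rw [hm, neg_mul, neg_neg, e1, hval]
    rw [f3, f2, f1]
    calc be * ee al up v * be * (be * F y) = be * ee al up v * (be * (be * F y)) := by group
      _ = _ := by rw [hbb]; group
  · exact caseB g h1 ha

end

end Pool.Agent.F8.G
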