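import Pool.Agent.Lib.MP_305fdd_al.F8.G.Pres2

/-!
# MP_305fdd_al, figure-eight project, block G: the presentation of `PSL₂(ℤ[ω])`, third part

The beginning of the induction, the induction principle for `SL₂(ℤ[ω])` and the homomorphism.
-/

set_option autoImplicit false

namespace Pool.Agent.F8.G

open scoped QuadraticAlgebra

section

variable {Q : Type} [Group Q] {al up j be : Q}

theorem SL_tri (g : SL2 O) (hg : g.val 1 0 = 0) :
    g.val 0 0 * g.val 1 1 = 1 ∧ nm (g.val 0 0) = 1 := by
  have h1 := SL_det g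
  rw [hg, mul_zero, sub_zero] at h1
  refine ⟨h1, ?_⟩
  have h2 := congrArg nm h1
  rw [nm_mul, nm_one] at h2
  have h3 := nm_nonneg (g.val 0 0)
  have h4 := nm_nonneg (g.val 1 1)
  exact Int.eq_one_of_mul_eq_one_right h3 h2

variable {F : SL2 O → Q}

/-- the beginning of the induction -/
theorem good_zero (hr : Rel Q al up j be) (hF : IsFF al up j be F) : Good al up j be F 0 := by
  have hz : ∀ x : O, nm x ≤ ((0 : ℕ) : ℤ) → x = 0 := by
    intro x hx
    have := nm_nonneg x
    apply nm_eq_zero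
    push_cast at hx
    omega
  refine ⟨?_, ?_, ?_, ?_, ?_⟩
  · intro g hg hc
    exact absurd (hz _ hg) hc
  · intro g hg x
    have hc := hz _ hg
    rw [hF.z g hc, hF.z _ (by rw [U10]; exact hc)]
    unfold T0
    rw [U01, U00, hc, mul_zero, add_zero]
    obtain ⟨h1, h2⟩ := SL_tri g hc
    have : (g.val 0 1 + x * g.val 1 1) * g.val 0 0 = x + g.val 0 1 * g.val 0 0 := by
      linear_combination x * h1
    rw [this, hr.ee_add, mul_assoc]
  · intro g hg
    have hc := hz _ hg
    rw [hF.z g hc, hF.z _ (by rw [J10, hc, mul_zero])]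
    obtain ⟨h1, h2⟩ := SL_tri g hc
    unfold T0
    rw [J01, J00, dd_om h2 hr.c2]
    have e1 : om ℤ * g.val 0 1 * (om ℤ * g.val 0 0) =
        om ℤ * om ℤ * (g.val 0 1 * g.val 0 0) := by ring
    rw [e1]
    calc ee al up (om ℤ * om ℤ * (g.val 0 1 * g.val 0 0)) * (j * j ^ dd (g.val 0 0))
        = (ee al up (om ℤ * om ℤ * (g.val 0 1 * g.val 0 0)) * j) * j ^ dd (g.val 0 0) := by
          group
      _ = (j * ee al up (g.val 0 1 * g.val 0 0)) * j ^ dd (g.val 0 0) := by
          rw [← hr.j_ee]
      _ = _ := by rw [mul_assoc]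
  · intro g hg
    have hc := hz _ hg
    rw [hF.z g hc, hF.z _ (by rw [SL_neg, hc, neg_zero])]
    obtain ⟨h1, h2⟩ := SL_tri g hc
    unfold T0
    rw [SL_neg, SL_neg, dd_neg h2, neg_mul_neg]
  · intro g ha hc
    have h3 := SL_det g
    rw [hz _ ha, hz _ hc] at h3
    simp at h3

theorem good_all (hr : Rel Q al up j be) (hF : IsFF al up j be F) (m : ℕ) :
    Good al up j be F m := by
  induction m with
  | zero => exact good_zero hr hF
  | succ m ih => exact good_succ hr hF ih

/-- the induction principle for `SL₂(ℤ[ω])` -/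
theorem SL_ind (P : SL2 O → Prop) (h1 : P 1) (hU : ∀ (x : O) (g : SL2 O), P g → P (mU x * g))
    (hJ : ∀ g : SL2 O, P g → P (mJ ℤ * g)) (hB : ∀ g : SL2 O, P g → P (mB O * g))
    (g : SL2 O) : P g := by
  have hN : ∀ g : SL2 O, P g → P (-g) := by
    intro g hg
    rw [← BBg]
    exact hB _ (hB _ hg)
  have hJp : ∀ k : ℕ, P (mJ ℤ ^ k) := by
    intro k
    induction k with
    | zero => exact h1
    | succ k ih => rw [pow_succ']; exact hJ _ ih
  have key : ∀ n : ℕ, ∀ g : SL2 O, nm (g.val 1 0) ≤ n → P g := by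
    intro n
    induction n with
    | zero =>
      intro g hg
      have hc : g.val 1 0 = 0 := by
        have := nm_nonneg (g.val 1 0)
        apply nm_eq_zero
        push_cast at hg
        omega
      obtain ⟨h2, h3⟩ := SL_tri g hc
      -- `g = ± e(a b) J ^ k`
      have hk : ∃ k : ℕ, g.val 0 0 = (mJ ℤ ^ k).val 0 0 ∨ g.val 0 0 = -(mJ ℤ ^ k).val 0 0 := by
        rcases unit_cases h3 with h | h | h | h | h | h
        · exact ⟨0, Or.inl (by rw [h]; rfl)⟩
        · exact ⟨0, Or.inr (by rw [h]; rfl)⟩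
        · exact ⟨1, Or.inl (by rw [h, pow_one, mJ00]; rfl)⟩
        · exact ⟨1, Or.inr (by rw [h, pow_one, mJ00]; rfl)⟩
        · exact ⟨2, Or.inl (by rw [h, pow_two, J00, mJ00]; decide)⟩
        · exact ⟨2, Or.inr (by rw [h, pow_two, J00, mJ00]; decide)⟩
      obtain ⟨k, hk⟩ := hk
      have hd : ∀ k : ℕ, (mJ ℤ ^ k).val 0 1 = 0 ∧ (mJ ℤ ^ k).val 1 0 = 0 := by
        intro k
        induction k with
        | zero => exact ⟨rfl, rfl⟩
        | succ k ih =>
          rw [pow_succ']
          exact ⟨by rw [J01, ih.1, mul_zero], by rw [J10, ih.2, mul_zero]⟩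
      obtain ⟨d1, d2⟩ := hd k
      have d3 := SL_det (mJ ℤ ^ k)
      rw [d1, zero_mul, sub_zero] at d3
      rcases hk with hk | hk
      · have e : g = mU (g.val 0 1 * g.val 0 0) * mJ ℤ ^ k := by
          have e1 : (mJ ℤ ^ k).val 1 1 = g.val 1 1 := by
            calc (mJ ℤ ^ k).val 1 1 = (g.val 0 0 * g.val 1 1) * (mJ ℤ ^ k).val 1 1 := by
                  rw [h2, one_mul]
              _ = ((mJ ℤ ^ k).val 0 0 * (mJ ℤ ^ k).val 1 1) * g.val 1 1 := by rw [hk]; ring
              _ = _ := by rw [d3, one_mul]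
          apply SL_ext
          · rw [U00, d2, mul_zero, add_zero, hk]
          · rw [U01, d1, zero_add, e1]
            linear_combination (-g.val 0 1) * h2
          · rw [U10, d2, hc]
          · rw [U11, e1]
        rw [e]
        exact hU _ _ (hJp k)
      · have e : g = -(mU (g.val 0 1 * g.val 0 0) * mJ ℤ ^ k) := by
          have e1 : (mJ ℤ ^ k).val 1 1 = -g.val 1 1 := by
            calc (mJ ℤ ^ k).val 1 1 = (g.val 0 0 * g.val 1 1) * (mJ ℤ ^ k).val 1 1 := by
                  rw [h2, one_mul]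
              _ = -(((mJ ℤ ^ k).val 0 0 * (mJ ℤ ^ k).val 1 1) * g.val 1 1) := by rw [hk]; ring
              _ = _ := by rw [d3, one_mul]
          apply SL_ext
          · rw [SL_neg, U00, d2, mul_zero, add_zero, hk]
          · rw [SL_neg, U01, d1, zero_add, e1]
            linear_combination (-g.val 0 1) * h2
          · rw [SL_neg, U10, d2, hc, neg_zero]
          · rw [SL_neg, U11, e1, neg_neg]
        rw [e]
        exact hN _ (hU _ _ (hJp k))
    | succ n ih =>
      intro g hg
      by_cases hc : g.val 1 0 = 0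
      · exact ih g (by rw [hc, nm_zero]; positivity)
      · obtain ⟨q, hq⟩ := O_div (g.val 0 0) (g.val 1 0) hc
        have h2 : P (mB O * (mU (-q) * g)) := ih _ (by
          rw [BU10]
          push_cast at hg
          omega)
        have h3 : g = mU q * -(mB O * (mB O * (mU (-q) * g))) := by
          rw [BBg, neg_neg, UUg, add_neg_cancel, mU_zero, one_mul]
        rw [h3]
        exact hU _ _ (hN _ (hB _ h2))
  exact key (nm (g.val 1 0)).toNat g (by
    have := nm_nonneg (g.val 1 0)
    omega)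

/-- the homomorphism defined by elements satisfying the relations -/
theorem pres (hr : Rel Q al up j be) : ∃ f : SL2 O →* Q,
    (∀ x, f (mU x) = ee al up x) ∧ f (mJ ℤ) = j ∧ f (mB O) = be := by
  obtain ⟨F, hF⟩ : ∃ F, IsFF al up j be F := ⟨_, isFF al up j be⟩
  have hU : ∀ (x : O) (g : SL2 O), F (mU x * g) = ee al up x * F g := fun x g =>
    (good_all hr hF (nm (g.val 1 0)).toNat).U g (by
      have := nm_nonneg (g.val 1 0)
      omega) x
  have hJ : ∀ g : SL2 O, F (mJ ℤ * g) = j * F g := fun g =>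
    (good_all hr hF (nm (g.val 1 0)).toNat).J g (by
      have := nm_nonneg (g.val 1 0)
      omega)
  have hB : ∀ g : SL2 O, F (mB O * g) = be * F g := fun g =>
    (good_all hr hF (max (nm (g.val 0 0)).toNat (nm (g.val 1 0)).toNat)).B g (by
      have := nm_nonneg (g.val 0 0)
      omega) (by
      have := nm_nonneg (g.val 1 0)
      omega)
  have h1 : F 1 = 1 := by
    rw [hF.z 1 one10]
    unfold T0
    rw [one01, one00, zero_mul, ee_zero, one_mul]
    have : dd (1 : O) = 0 := by decide
    rw [this, pow_zero]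
  have hm : ∀ g h : SL2 O, F (g * h) = F g * F h := by
    have key : ∀ g : SL2 O, ∃ q : Q, ∀ h, F (g * h) = q * F h := by
      apply SL_ind
      · exact ⟨1, fun h => by rw [one_mul, one_mul]⟩
      · rintro x g ⟨q, hq⟩
        exact ⟨ee al up x * q, fun h => by rw [mul_assoc, hU, hq, mul_assoc]⟩
      · rintro g ⟨q, hq⟩
        exact ⟨j * q, fun h => by rw [mul_assoc, hJ, hq, mul_assoc]⟩
      · rintro g ⟨q, hq⟩
        exact ⟨be * q, fun h => by rw [mul_assoc, hB, hq, mul_assoc]⟩
    intro g h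
    obtain ⟨q, hq⟩ := key g
    have h2 := hq 1
    rw [mul_one, h1, mul_one] at h2
    rw [hq, h2]
  refine ⟨⟨⟨F, h1⟩, hm⟩, ?_, ?_, ?_⟩
  · intro x
    have := hU x 1
    rw [mul_one, h1, mul_one] at this
    exact this
  · have := hJ 1
    rw [mul_one, h1, mul_one] at this
    exact this
  · have := hB 1
    rw [mul_one, h1, mul_one] at this
    exact this

end

/-- a subgroup containing `A, U, J, B` is everything -/
theorem SL_sub (H : Subgroup (SL2 O)) (hA : ma O ∈ H) (hU : mU (om ℤ) ∈ H) (hJ : mJ ℤ ∈ H)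
    (hB : mB O ∈ H) (g : SL2 O) : g ∈ H := by
  have hz : ∀ (x : O) (n : ℤ), mU ((n : O) * x) = mU x ^ n := by
    intro x n
    induction n using Int.induction_on with
    | zero => rw [Int.cast_zero, zero_mul, mU_zero, zpow_zero]
    | succ i ih =>
      rw [zpow_add_one, ← ih, ← mU_add]
      congr 1
      push_cast; ring
    | pred i ih =>
      rw [zpow_sub_one, ← ih, eq_mul_inv_iff_mul_eq, ← mU_add]
      congr 1
      push_cast; ring
  have hx : ∀ x : O, mU x ∈ H := by
    intro x
    have e : x = (x.re : O) * 1 + (x.im : O) * om ℤ := by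
      apply O_ext <;> simp [th]
    have hA' : mU (1 : O) ∈ H := hA
    rw [e, mU_add, hz, hz]
    exact H.mul_mem (H.zpow_mem hA' _) (H.zpow_mem hU _)
  exact SL_ind (fun g => g ∈ H) H.one_mem (fun x g hg => H.mul_mem (hx x) hg)
    (fun g hg => H.mul_mem hJ hg) (fun g hg => H.mul_mem hB hg) g

end Pool.Agent.F8.G
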