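import Pool.Agent.Lib.MP_305fdd_al.F8.G.Pres3

/-!
# MP_305fdd_al, figure-eight project, block G: the coset table

`PSL₂(ℤ[ω])` acts on the six cosets of the image of `N2`; the monomial matrices `pA, pU, pJ, pB` over
`N2` satisfy the relations of `PSL₂(ℤ[ω])`.
-/

set_option autoImplicit false

namespace Pool.Agent.F8.G

open scoped QuadraticAlgebra

/-- the relations of `N2` -/
structure RelN (G : Type) [Group G] (u v a k : G) : Prop where
  r1 : a * u = u * (v⁻¹ * (u * (u * a)))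
  r2 : a * v = u * a
  r3 : k * k = 1
  r4 : k * u = u⁻¹ * k
  r5 : k * v = v⁻¹ * k
  r6 : k * a = u * (a * k)

section

variable {G : Type} [Group G] {u v a k : G}

namespace RelN

variable (h : RelN G u v a k)
include h

theorem a_u (x : G) : a * (u * x) = u * (v⁻¹ * (u * (u * (a * x)))) := by
  rw [← mul_assoc, h.r1]; simp only [mul_assoc]

theorem a_v (x : G) : a * (v * x) = u * (a * x) := by
  rw [← mul_assoc, h.r2]; simp only [mul_assoc]

theorem a_u' (x : G) : a * (u⁻¹ * x) = u⁻¹ * (u⁻¹ * (v * (u⁻¹ * (a * x)))) := by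
  have := h.a_u (u⁻¹ * x)
  rw [mul_inv_cancel_left] at this
  rw [this]; group

theorem a_v' (x : G) : a * (v⁻¹ * x) = u⁻¹ * (a * x) := by
  have := h.a_v (v⁻¹ * x)
  rw [mul_inv_cancel_left] at this
  rw [this]; group

theorem a'_u (x : G) : a⁻¹ * (u * x) = v * (a⁻¹ * x) := by
  rw [inv_mul_eq_iff_eq_mul, h.a_v, mul_inv_cancel_left]

theorem a'_u' (x : G) : a⁻¹ * (u⁻¹ * x) = v⁻¹ * (a⁻¹ * x) := by
  rw [inv_mul_eq_iff_eq_mul, h.a_v', mul_inv_cancel_left]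

theorem a'_v (x : G) : a⁻¹ * (v * x) = v * (v * (u⁻¹ * (v * (a⁻¹ * x)))) := by
  rw [inv_mul_eq_iff_eq_mul, h.a_v, h.a_v, h.a_u', h.a_v, mul_inv_cancel_left]
  simp

theorem a'_v' (x : G) : a⁻¹ * (v⁻¹ * x) = v⁻¹ * (u * (v⁻¹ * (v⁻¹ * (a⁻¹ * x)))) := by
  rw [inv_mul_eq_iff_eq_mul, h.a_v', h.a_u, h.a_v', h.a_v', mul_inv_cancel_left]
  simp

theorem k_k (x : G) : k * (k * x) = x := by
  rw [← mul_assoc, h.r3, one_mul]

theorem k_inv : k⁻¹ = k := inv_eq_of_mul_eq_one_left h.r3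

theorem k_u (x : G) : k * (u * x) = u⁻¹ * (k * x) := by
  rw [← mul_assoc, h.r4, mul_assoc]

theorem k_v (x : G) : k * (v * x) = v⁻¹ * (k * x) := by
  rw [← mul_assoc, h.r5, mul_assoc]

theorem k_u' (x : G) : k * (u⁻¹ * x) = u * (k * x) := by
  have := h.k_u (u⁻¹ * x)
  rw [mul_inv_cancel_left] at this
  rw [this, mul_inv_cancel_left]

theorem k_v' (x : G) : k * (v⁻¹ * x) = v * (k * x) := by
  have := h.k_v (v⁻¹ * x)
  rw [mul_inv_cancel_left] at this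
  rw [this, mul_inv_cancel_left]

theorem k_a (x : G) : k * (a * x) = u * (a * (k * x)) := by
  rw [← mul_assoc, h.r6]; simp only [mul_assoc]

theorem k_a' (x : G) : k * (a⁻¹ * x) = v⁻¹ * (a⁻¹ * (k * x)) := by
  have := h.k_a (a⁻¹ * x)
  rw [mul_inv_cancel_left] at this
  rw [this, ← h.a'_u', inv_mul_cancel_left, inv_mul_cancel_left]

end RelN

/-- monomial permutations -/
def mkP (s t : Fin 6 → Fin 6) (h1 : ∀ i, t (s i) = i) (h2 : ∀ i, s (t i) = i)
    (c : Fin 6 → G) : Equiv.Perm (Fin 6 × G) where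
  toFun p := (s p.1, c p.1 * p.2)
  invFun p := (t p.1, (c (t p.1))⁻¹ * p.2)
  left_inv p := by
    obtain ⟨i, y⟩ := p
    simp only [h1, inv_mul_cancel_left]
  right_inv p := by
    obtain ⟨i, y⟩ := p
    simp only [h2, mul_inv_cancel_left]

theorem mkP_apply (s t : Fin 6 → Fin 6) (h1 : ∀ i, t (s i) = i) (h2 : ∀ i, s (t i) = i)
    (c : Fin 6 → G) (i : Fin 6) (y : G) : mkP s t h1 h2 c (i, y) = (s i, c i * y) := rfl

variable (u v a k)

/-- the permutation of `A` -/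
def sA : Fin 6 → Fin 6 := ![0, 4, 5, 3, 1, 2]
/-- the coefficients of `A` -/
def cA : Fin 6 → G := ![a, 1, 1, a, u * (v⁻¹ * (v⁻¹ * (a⁻¹ * k))), v * (u⁻¹ * (a⁻¹ * k))]
/-- the permutation of `B` -/
def sB : Fin 6 → Fin 6 := ![2, 1, 0, 4, 3, 5]
/-- the coefficients of `B` -/
def cB : Fin 6 → G := ![1, k, 1, v⁻¹ * k, v⁻¹ * k, u⁻¹ * (v * (u⁻¹ * k))]
/-- the permutation of `J` -/
def sJ : Fin 6 → Fin 6 := ![1, 2, 0, 4, 5, 3]
/-- the inverse permutation -/
def tJ : Fin 6 → Fin 6 := ![2, 0, 1, 5, 3, 4]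
/-- the coefficients of `J` -/
def cJ : Fin 6 → G := ![1, k, k, 1, u⁻¹ * v, v⁻¹ * u]
/-- the permutation of `U` -/
def sU : Fin 6 → Fin 6 := ![3, 4, 2, 0, 1, 5]
/-- the coefficients of `U` -/
def cU : Fin 6 → G := ![1, v⁻¹ * (u * k), u * a, u * (v⁻¹ * (v⁻¹ * (a⁻¹ * k))), a⁻¹, u * a]

/-- the monomial permutation of `A` -/
def pA : Equiv.Perm (Fin 6 × G) := mkP sA sA (by decide) (by decide) (cA u v a k)
/-- the monomial permutation of `B` -/
def pB : Equiv.Perm (Fin 6 × G) := mkP sB sB (by decide) (by decide) (cB u v k)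
/-- the monomial permutation of `J` -/
def pJ : Equiv.Perm (Fin 6 × G) := mkP sJ tJ (by decide) (by decide) (cJ u v k)
/-- the monomial permutation of `U` -/
def pU : Equiv.Perm (Fin 6 × G) := mkP sU sU (by decide) (by decide) (cU u v a k)

variable {u v a k}

theorem table (h : RelN G u v a k) : Rel (Equiv.Perm (Fin 6 × G)) (pA u v a k) (pU u v a k)
    (pJ u v k) (pB u v k) := by
  refine ⟨?_, ?_, ?_, ?_, ?_, ?_, ?_⟩ <;> apply Equiv.ext <;> rintro ⟨i, y⟩ <;>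
    simp only [Equiv.Perm.mul_apply, Equiv.Perm.one_apply, pA, pU, pJ, pB, mkP_apply] <;>
    fin_cases i <;>
    simp [sA, cA, sU, cU, sJ, cJ, sB, cB, mul_assoc, h.a_u, h.a_v, h.a_u', h.a_v', h.a'_u,
      h.a'_u', h.a'_v, h.a'_v', h.k_k, h.k_u, h.k_v, h.k_u', h.k_v', h.k_a, h.k_a']

end

end Pool.Agent.F8.G
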